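import Pool.Agent.H73.AW.Fam

/-! Counting assignments which are not good. -/

namespace Pool.Agent.H73.AW

open Finset Matrix Pool.Agent.H73.QA Pool.Agent.H73.AD

set_option linter.unusedSectionVars false

variable {n k m : ℕ} {Y : Type} [Fintype Y] [DecidableEq Y] {p q r : ℕ}

/-- indices of suffixes -/
abbrev Ix (p q r : ℕ) := Option (Fin p ⊕ Fin p ⊕ Fin q) × Fin (r + 1)

noncomputable def sufW (w : Fin p → List (Letter n m Y)) (T : Fin q → List (Letter n m Y))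
    (x : Ix p q r) : List (Letter n m Y) := (allW w T x.1).drop x.2

theorem card_Ix : Fintype.card (Ix p q r) = (p + (p + q) + 1) * (r + 1) := by
  simp [Ix, Fintype.card_option, Fintype.card_sum]

theorem allW_length {w : Fin p → List (Letter n m Y)} {T : Fin q → List (Letter n m Y)}
    (hr : ∀ i, (w i).length ≤ r) (hrT : ∀ i, (T i).length ≤ r)
    (x : Option (Fin p ⊕ Fin p ⊕ Fin q)) : (allW w T x).length ≤ r := by
  rcases x with _ | x | x | x
  · simp [allW]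
  · exact hr x
  · show (adjW (w x)).length ≤ r
    rw [adjW_length]
    exact hr x
  · exact hrT x

theorem allW_ok {w : Fin p → List (Letter n m Y)} {T : Fin q → List (Letter n m Y)}
    (hw : ∀ i, ∀ l ∈ w i, l.Ok k) (hT : ∀ i, ∀ l ∈ T i, l.Ok k)
    (x : Option (Fin p ⊕ Fin p ⊕ Fin q)) : ∀ l ∈ allW w T x, l.Ok k := by
  rcases x with _ | x | x | x
  · intro l hl
    simp [allW] at hl
  · exact hw x
  · exact adjW_ok (hw x)
  · exact hT x

theorem sufW_ok {w : Fin p → List (Letter n m Y)} {T : Fin q → List (Letter n m Y)}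
    (hw : ∀ i, ∀ l ∈ w i, l.Ok k) (hT : ∀ i, ∀ l ∈ T i, l.Ok k) (x : Ix p q r) :
    ∀ l ∈ sufW w T x, l.Ok k := fun l hl => allW_ok hw hT x.1 l (List.mem_of_mem_drop hl)

theorem sufW_length {w : Fin p → List (Letter n m Y)} {T : Fin q → List (Letter n m Y)}
    (hr : ∀ i, (w i).length ≤ r) (hrT : ∀ i, (T i).length ≤ r) (x : Ix p q r) :
    (sufW w T x).length ≤ r := by
  unfold sufW
  rw [List.length_drop]
  have := allW_length hr hrT x.1
  omega

/-- a violated near bound is violated for one of finitely many suffixes -/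
theorem exists_ix {G : Fin m → Clause n k} {δ η : ℝ} {w : Fin p → List (Letter n m Y)}
    {T : Fin q → List (Letter n m Y)} (hr : ∀ i, (w i).length ≤ r)
    (hrT : ∀ i, (T i).length ≤ r) {z : Cube n} {v : Sp n Y} (h : ¬ NS G δ η w T z v) :
    ∃ x : Ix p q r, η < ‖nearP (hball δ z) (lin (wd (Letter.flt G δ z) (sufW w T x)) v)‖ := by
  by_contra hno
  push Not at hno
  refine h fun x i => ?_
  rcases Nat.lt_or_ge i (r + 1) with hi | hi
  · exact hno (x, ⟨i, hi⟩)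
  · have h1 := allW_length hr hrT x
    have h2 : (allW w T x).drop i = (allW w T x).drop r := by
      rw [List.drop_eq_nil_of_le (by omega), List.drop_eq_nil_of_le h1]
    rw [h2]
    exact hno (x, ⟨r, by omega⟩)

variable {α κ Λ ε δ ν ρ σ β R : ℝ} {J : ℕ}

/-- counting by fibers -/
theorem count_gen (hC : Consts κ Λ ε δ ν ρ σ β R n k J r) (hm : 0 < m) {G : Fin m → Clause n k}
    (hG : Typ ε δ ν G) (w : Fin p → List (Letter n m Y)) (T : Fin q → List (Letter n m Y))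
    (hw : ∀ i, ∀ l ∈ w i, l.Ok k) (hr : ∀ i, (w i).length ≤ r) (hT : ∀ i, ∀ l ∈ T i, l.Ok k)
    (hrT : ∀ i, (T i).length ≤ r) {K : Type} [DecidableEq K] (S : Finset (Cube n))
    (I : Finset K) (key : Cube n → K) (hI : ∀ z ∈ S, key z ∈ I) (v : Cube n → Sp n Y)
    {η c : ℝ} (hη : 0 < η) (hnear : ∀ z ∈ S, ¬ NS G δ η w T z (v z))
    (hgood : ∀ F : Finset (Cube n), F ⊆ S → ∀ z0 ∈ F, (∀ z ∈ F, key z = key z0) →
      Good β c (fun z : F => v z)) :
    (S.card : ℝ) ≤ (I.card * Fintype.card (Ix p q r) : ℝ) *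
      (4 * (β ^ 2 * (8 ^ r * c) ^ 2) / η ^ 2) := by
  classical
  have hex : ∀ z, ∃ x : Ix p q r, z ∈ S →
      η < ‖nearP (hball δ z) (lin (wd (Letter.flt G δ z) (sufW w T x)) (v z))‖ := by
    intro z
    by_cases hz : z ∈ S
    · obtain ⟨x, hx⟩ := exists_ix hr hrT (hnear z hz)
      exact ⟨x, fun _ => hx⟩
    · exact ⟨(none, 0), fun h => absurd h hz⟩
  choose ix hix using hex
  have hcard := fiber_count S (fun z => (key z, ix z)) (I ×ˢ univ) (fun z hz => by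
    rw [mem_product]
    exact ⟨hI z hz, mem_univ _⟩) (b := 4 * (β ^ 2 * (8 ^ r * c) ^ 2) / η ^ 2) (fun y _ => ?_)
  · rw [card_product, card_univ] at hcard
    push_cast at hcard
    exact hcard
  obtain ⟨F, hF⟩ : ∃ F, F = S.filter fun z => (key z, ix z) = y := ⟨_, rfl⟩
  rw [← hF]
  have hFS : ∀ z ∈ F, z ∈ S ∧ key z = y.1 ∧ ix z = y.2 := by
    intro z hz
    rw [hF, mem_filter] at hz
    exact ⟨hz.1, congrArg Prod.fst hz.2, congrArg Prod.snd hz.2⟩
  rcases F.eq_empty_or_nonempty with hF0 | ⟨z0, hz0⟩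
  · rw [hF0, card_empty, Nat.cast_zero]
    positivity
  have h1 := hgood F (fun z hz => (hFS z hz).1) z0 hz0
    (fun z hz => (hFS z hz).2.1.trans (hFS z0 hz0).2.1.symm)
  have hinj : Function.Injective (fun z : F => (z : Cube n)) := Subtype.val_injective
  have hB := ball_sub hC.ball (fun z : F => (z : Cube n)) hinj
  have h2 := (goodOp_wd hm hC.ε1 hG hC.β0 (fun z : F => (z : Cube n)) hB (sufW w T y.2)
    (sufW_ok hw hT y.2)).mono hC.β0 (pow_len_le (sufW_length hr hrT y.2) (by norm_num))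
  have h3 := h2.2 _ _ h1
  have h5 := markov hC.β0 hB h3 hη.le (fun z => by
    have h6 := hix z (hFS z z.2).1
    rw [(hFS z z.2).2.2] at h6
    exact h6.le)
  rw [Fintype.card_coe] at h5
  rw [le_div_iff₀ (by positivity)]
  exact h5

/-- functions that discretise the parameters -/
structure Nets (Λ ρ σ : ℝ) (p r : ℕ) (Ic : Finset (Fin p → ℤ)) (Is : Finset ℤ)
    (cell : (Fin p → ℝ) → Fin p → ℤ) (ns : ℝ → ℤ) : Prop where
  c1 : ∀ a : Fin p → ℝ, ∑ i, |a i| ≤ Λ → cell a ∈ Ic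
  c2 : ∀ a a', cell a = cell a' → ∀ i, |a i - a' i| ≤ 2 * ρ / p
  s1 : ∀ x, |x| ≤ Λ * 2 ^ (r + 1) → ns x ∈ Is
  s2 : ∀ x y, ns x = ns y → |x - y| ≤ σ

variable {Ic : Finset (Fin p → ℤ)} {Is : Finset ℤ} {cell : (Fin p → ℝ) → Fin p → ℤ} {ns : ℝ → ℤ}

theorem abs_le_of_eig {A : Sp n Y →ₗ[ℂ] Sp n Y} {B e : ℝ} {v : Sp n Y}
    (hA : ∀ u, ‖A u‖ ≤ B * ‖u‖) (hv : ‖v‖ = 1) (he : A v = (e : ℂ) • v) : |e| ≤ B := by
  have h1 := hA v
  rw [he, norm_smul, Complex.norm_real, Real.norm_eq_abs, hv, mul_one, mul_one] at h1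
  exact h1

/-- eigenvectors of averaged Hamiltonians -/
theorem count0 (hC : Consts κ Λ ε δ ν ρ σ β R n k J r) (hm : 0 < m) {G : Fin m → Clause n k}
    (hG : Typ ε δ ν G) (w : Fin p → List (Letter n m Y)) (T : Fin q → List (Letter n m Y))
    (hw : ∀ i, ∀ l ∈ w i, l.Ok k) (hr : ∀ i, (w i).length ≤ r) (hT : ∀ i, ∀ l ∈ T i, l.Ok k)
    (hrT : ∀ i, (T i).length ≤ r) (hR : (2 : ℝ) ^ (α * n) ≤ R ^ 2)
    (hN : Nets Λ ρ σ p r Ic Is cell ns) {η : ℝ} (hη : 0 < η) (S : Finset (Cube n))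
    (hS : ∀ z ∈ S, ∃ (a : Fin p → ℝ) (e : ℝ) (v : Sp n Y), ∑ i, |a i| ≤ Λ ∧ ‖v‖ = 1 ∧
      lin (Ham Letter.av w a) v = (e : ℂ) • v ∧ Few α κ e (Ham Letter.av w a) ∧
      ¬ NS G δ η w T z v) :
    (S.card : ℝ) ≤ ((Ic.card * Is.card : ℝ) * Fintype.card (Ix p q r)) *
      (4 * (β ^ 2 * (8 ^ r * (R * geo κ Λ ρ σ r J + 1)) ^ 2) / η ^ 2) := by
  classical
  choose! a e v hS using hS
  have h := count_gen hC hm hG w T hw hr hT hrT S (Ic ×ˢ Is)
    (fun z => (cell (a z), ns (e z))) (fun z hz => ?_) v hη (fun z hz => (hS z hz).2.2.2.2)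
    (c := R * geo κ Λ ρ σ r J + 1) (fun F hFS z0 hz0 hkey => ?_)
  · rw [card_product] at h
    push_cast at h
    exact h
  · obtain ⟨h1, h2, h3, h4, h5⟩ := hS z hz
    rw [mem_product]
    refine ⟨hN.c1 _ h1, hN.s1 _ ?_⟩
    have h6 := abs_le_of_eig (B := Λ * 2) (fun u => by
      rw [mul_assoc]; exact norm_ham_av w hw (a z) h1 u) h2 h3
    refine h6.trans (mul_le_mul_of_nonneg_left ?_ hC.Λ0)
    calc (2 : ℝ) = 2 ^ 1 := by norm_num
      _ ≤ 2 ^ (r + 1) := pow_le_pow_right₀ one_le_two (by omega)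
  · have hk : ∀ z : F, cell (a z) = cell (a z0) ∧ ns (e z) = ns (e z0) := by
      intro z
      have h1 := hkey z z.2
      simpa [Prod.ext_iff] using h1
    obtain ⟨hA, hfew⟩ := (hS z0 (hFS hz0)).2.2.2.1
    have h1 := famA (α := α) (cu := 0) (θ := e z0 + κ) hC w hw (a z0) (hS z0 (hFS hz0)).1 hR
      ⟨hA, hfew⟩ (Z := F) (fun z => (z : Cube n)) Subtype.val_injective (fun z => a z)
      (fun z => hN.c2 _ _ (hk z).1) (fun z => e z) (e z0) (fun z => hN.s2 _ _ (hk z).2)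
      (by have := hC.κ0; linarith) (fun z => v z) (fun _ => 0)
      (fun z => (hS z (hFS z.2)).2.1.le) (Good.zero hC.β0 le_rfl) (fun z => by
        rw [(hS z (hFS z.2)).2.2.1, sub_self])
    rw [mul_zero, add_zero] at h1
    exact h1

/-- eigenvectors of flattened Hamiltonians -/
theorem count1 (hC : Consts κ Λ ε δ ν ρ σ β R n k J r) (hm : 0 < m) {G : Fin m → Clause n k}
    (hG : Typ ε δ ν G) (w : Fin p → List (Letter n m Y)) (T : Fin q → List (Letter n m Y))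
    (hw : ∀ i, ∀ l ∈ w i, l.Ok k) (hr : ∀ i, (w i).length ≤ r) (hT : ∀ i, ∀ l ∈ T i, l.Ok k)
    (hrT : ∀ i, (T i).length ≤ r) (hR : (2 : ℝ) ^ (α * n) ≤ R ^ 2)
    (hN : Nets Λ ρ σ p r Ic Is cell ns) {η : ℝ} (hη : 0 < η) (S : Finset (Cube n))
    (hS : ∀ z ∈ S, ∃ (a : Fin p → ℝ) (e f : ℝ) (φ : Sp n Y), (∑ i, |a i| ≤ Λ ∧ ‖φ‖ = 1 ∧
      lin (Ham (Letter.flt G δ z) w a) φ = (f : ℂ) • φ ∧
      Few α (κ / 2) e (Ham Letter.av w a) ∧ |f - e| ≤ κ / 8) ∧ ¬ NS G δ η w T z φ) :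
    (S.card : ℝ) ≤ ((Ic.card * Is.card : ℝ) * Fintype.card (Ix p q r)) *
      (4 * (β ^ 2 * (8 ^ r * (R * geo κ Λ ρ σ r J + 1)) ^ 2) / η ^ 2) := by
  classical
  choose! a e f v hS using hS
  have h := count_gen hC hm hG w T hw hr hT hrT S (Ic ×ˢ Is)
    (fun z => (cell (a z), ns (f z))) (fun z hz => ?_) v hη (fun z hz => (hS z hz).2)
    (c := R * geo κ Λ ρ σ r J + 1) (fun F hFS z0 hz0 hkey => ?_)
  · rw [card_product] at h
    push_cast at h
    exact h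
  · obtain ⟨⟨h1, h2, h3, h4, h5⟩, h6⟩ := hS z hz
    rw [mem_product]
    exact ⟨hN.c1 _ h1, hN.s1 _ (abs_le_of_eig
      (norm_ham_flt hm hC.ε1 hG z w hw hr (a z) h1) h2 h3)⟩
  · have hk : ∀ z : F, cell (a z) = cell (a z0) ∧ ns (f z) = ns (f z0) := by
      intro z
      have h1 := hkey z z.2
      simpa [Prod.ext_iff] using h1
    have h0 := (hS z0 (hFS hz0)).1
    obtain ⟨hA, hfew⟩ := h0.2.2.2.1
    have h1 := famF (α := α) (cu := 0) (θ := e z0 + κ / 2) hC hm hG w hw hr (a z0) h0.1 hR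
      ⟨hA, hfew⟩ (Z := F) (fun z => (z : Cube n)) Subtype.val_injective (fun z => a z)
      (fun z => (hS z (hFS z.2)).1.1) (fun z => hN.c2 _ _ (hk z).1) (fun z => f z) (f z0)
      (fun z => hN.s2 _ _ (hk z).2)
      (by have h2 := (abs_le.1 h0.2.2.2.2).2; have := hC.κ0; linarith) (fun z => v z)
      (fun _ => 0) (fun z => (hS z (hFS z.2)).1.2.1.le) (Good.zero hC.β0 le_rfl) (fun z => by
        rw [(hS z (hFS z.2)).1.2.2.1, sub_self])
    rw [mul_zero, add_zero] at h1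
    exact h1

/-- resolvents -/
theorem count2 (hC : Consts κ Λ ε δ ν ρ σ β R n k J r) (hm : 0 < m) {G : Fin m → Clause n k}
    (hG : Typ ε δ ν G) (w : Fin p → List (Letter n m Y)) (T : Fin q → List (Letter n m Y))
    (hw : ∀ i, ∀ l ∈ w i, l.Ok k) (hr : ∀ i, (w i).length ≤ r) (hT : ∀ i, ∀ l ∈ T i, l.Ok k)
    (hrT : ∀ i, (T i).length ≤ r) (hR : (2 : ℝ) ^ (α * n) ≤ R ^ 2)
    (hN : Nets Λ ρ σ p r Ic Is cell ns) {η : ℝ} (hη : 0 < η) (S : Finset (Cube n))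
    (hS : ∀ z ∈ S, ∃ (a : Fin p → ℝ) (e f : ℝ) (φ : Sp n Y) (o : Option (Fin q))
      (a' : Fin p → ℝ) (e' d : ℝ) (v : Sp n Y), (∑ i, |a i| ≤ Λ ∧ ‖φ‖ = 1 ∧
      lin (Ham (Letter.flt G δ z) w a) φ = (f : ℂ) • φ ∧
      Few α (κ / 2) e (Ham Letter.av w a) ∧ |f - e| ≤ κ / 8) ∧ (∑ i, |a' i| ≤ Λ ∧
      Few α (κ / 2) e' (Ham Letter.av w a') ∧ |e'| ≤ Λ * 2 ^ (r + 1) ∧ 0 < d ∧ d ≤ 1 ∧ ‖v‖ ≤ 1 ∧
      lin (Ham (Letter.flt G δ z) w a') v - (e' : ℂ) • v =
      (d : ℂ) • lin (wd (Letter.flt G δ z) (Tw T o)) φ) ∧ ¬ NS G δ η w T z v) :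
    (S.card : ℝ) ≤ (((Ic.card * Is.card) * ((q + 1) * (Ic.card * Is.card)) : ℝ) *
      Fintype.card (Ix p q r)) *
      (4 * (β ^ 2 * (8 ^ r * ((R + (κ / 4)⁻¹ * (8 ^ r * (R * geo κ Λ ρ σ r J + 1))) *
        geo κ Λ ρ σ r J + 1)) ^ 2) / η ^ 2) := by
  classical
  choose! a e f φ o a' e' d v hS using hS
  have h := count_gen hC hm hG w T hw hr hT hrT S
    ((Ic ×ˢ Is) ×ˢ (univ : Finset (Option (Fin q))) ×ˢ (Ic ×ˢ Is))
    (fun z => ((cell (a z), ns (f z)), o z, (cell (a' z), ns (e' z)))) (fun z hz => ?_) v hη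
    (fun z hz => (hS z hz).2.2)
    (c := (R + (κ / 4)⁻¹ * (8 ^ r * (R * geo κ Λ ρ σ r J + 1))) * geo κ Λ ρ σ r J + 1)
    (fun F hFS z0 hz0 hkey => ?_)
  · simp only [card_product, card_univ (α := Option (Fin q)), Fintype.card_option,
      Fintype.card_fin] at h
    push_cast at h
    exact h
  · obtain ⟨⟨h1, h2, h3, h4, h5⟩, ⟨h6, h7, h8, h9⟩, h10⟩ := hS z hz
    simp only [mem_product, mem_univ, true_and]
    exact ⟨⟨hN.c1 _ h1, hN.s1 _ (abs_le_of_eig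
      (norm_ham_flt hm hC.ε1 hG z w hw hr (a z) h1) h2 h3)⟩, hN.c1 _ h6, hN.s1 _ h8⟩
  · have hk : ∀ z : F, (cell (a z) = cell (a z0) ∧ ns (f z) = ns (f z0)) ∧ o z = o z0 ∧
        cell (a' z) = cell (a' z0) ∧ ns (e' z) = ns (e' z0) := by
      intro z
      have h1 := hkey z z.2
      simpa [Prod.ext_iff] using h1
    have h0 := (hS z0 (hFS hz0)).1
    obtain ⟨hA, hfew⟩ := h0.2.2.2.1
    have h1 := famF (α := α) (cu := 0) (θ := e z0 + κ / 2) hC hm hG w hw hr (a z0) h0.1 hR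
      ⟨hA, hfew⟩ (Z := F) (fun z => (z : Cube n)) Subtype.val_injective (fun z => a z)
      (fun z => (hS z (hFS z.2)).1.1) (fun z => hN.c2 _ _ (hk z).1.1) (fun z => f z) (f z0)
      (fun z => hN.s2 _ _ (hk z).1.2)
      (by have h2 := (abs_le.1 h0.2.2.2.2).2; have := hC.κ0; linarith) (fun z => φ z)
      (fun _ => 0) (fun z => (hS z (hFS z.2)).1.2.1.le) (Good.zero hC.β0 le_rfl) (fun z => by
        rw [(hS z (hFS z.2)).1.2.2.1, sub_self])
    rw [mul_zero, add_zero] at h1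
    -- the source of the second equation
    have hinj : Function.Injective (fun z : F => (z : Cube n)) := Subtype.val_injective
    have hB := ball_sub hC.ball (fun z : F => (z : Cube n)) hinj
    have hTo : ∀ l ∈ Tw T (o z0), l.Ok k := by
      cases o z0 with
      | none => intro l hl; simp [Tw] at hl
      | some j => exact hT j
    have hTl : (Tw T (o z0)).length ≤ r := by
      cases o z0 with
      | none => simp [Tw]
      | some j => exact hrT j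
    have h2 := ((goodOp_wd hm hC.ε1 hG hC.β0 (fun z : F => (z : Cube n)) hB (Tw T (o z0))
      hTo).mono hC.β0 (pow_len_le hTl (by norm_num))).2 _ _ h1
    have h3 := (goodOp_scalar (β := β) (Z := F) (E := Sp n Y) zero_le_one
      (fun z => ((d z : ℝ) : ℂ)) (fun z => by
        have h3 := (hS z (hFS z.2)).2.1
        rw [Complex.norm_real, Real.norm_eq_abs, abs_of_pos h3.2.2.2.1]
        exact h3.2.2.2.2.1)).2 _ _ h2
    have hsrc : Good β (8 ^ r * (R * geo κ Λ ρ σ r J + 1))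
        (fun z : F => ((d z : ℝ) : ℂ) •
          lin (wd (Letter.flt G δ (z : Cube n)) (Tw T (o z0))) (φ z)) := by
      have h4 := h3
      rw [one_mul] at h4
      simpa using h4
    have h0' := (hS z0 (hFS hz0)).2.1
    obtain ⟨hA', hfew'⟩ := h0'.2.1
    exact famF (α := α) (θ := e' z0 + κ / 2) hC hm hG w hw hr (a' z0) h0'.1 hR
      ⟨hA', hfew'⟩ (Z := F) (fun z => (z : Cube n)) Subtype.val_injective (fun z => a' z)
      (fun z => (hS z (hFS z.2)).2.1.1) (fun z => hN.c2 _ _ (hk z).2.2.1) (fun z => e' z) (e' z0)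
      (fun z => hN.s2 _ _ (hk z).2.2.2) (by have := hC.κ0; linarith) (fun z => v z) _
      (fun z => (hS z (hFS z.2)).2.1.2.2.2.2.2.1) hsrc (fun z => by
        rw [(hS z (hFS z.2)).2.1.2.2.2.2.2.2, (hk z).2.1])

end Pool.Agent.H73.AW
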