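import Pool.Agent.H73.AW.Bad

/-! Counting assignments which are not good, all kinds. -/

namespace Pool.Agent.H73.AW

open Finset Matrix Pool.Agent.H73.QA Pool.Agent.H73.AD

set_option linter.unusedSectionVars false

variable {n k m : ℕ} {Y : Type} [Fintype Y] [DecidableEq Y] {p q r : ℕ}
variable {α κ Λ ε δ ν ρ σ β R : ℝ} {J : ℕ}
variable {Ic : Finset (Fin p → ℤ)} {Is : Finset ℤ} {cell : (Fin p → ℝ) → Fin p → ℤ} {ns : ℝ → ℤ}

/-- assignments which are not good -/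
theorem count_bad (hC : Consts κ Λ ε δ ν ρ σ β R n k J r) (hm : 0 < m) {G : Fin m → Clause n k}
    (hG : Typ ε δ ν G) (w : Fin p → List (Letter n m Y)) (T : Fin q → List (Letter n m Y))
    (hw : ∀ i, ∀ l ∈ w i, l.Ok k) (hr : ∀ i, (w i).length ≤ r) (hT : ∀ i, ∀ l ∈ T i, l.Ok k)
    (hrT : ∀ i, (T i).length ≤ r) (hR : (2 : ℝ) ^ (α * n) ≤ R ^ 2)
    (hN : Nets Λ ρ σ p r Ic Is cell ns) {η : ℝ} (hη : 0 < η) (S : Finset (Cube n))
    (hS : ∀ z ∈ S, ¬ GoodW α κ Λ δ η r G w T z) :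
    (S.card : ℝ) ≤ ((Ic.card * Is.card : ℝ) * Fintype.card (Ix p q r)) *
      (4 * (β ^ 2 * (8 ^ r * (R * geo κ Λ ρ σ r J + 1)) ^ 2) / η ^ 2) +
      ((Ic.card * Is.card : ℝ) * Fintype.card (Ix p q r)) *
      (4 * (β ^ 2 * (8 ^ r * (R * geo κ Λ ρ σ r J + 1)) ^ 2) / η ^ 2) +
      (((Ic.card * Is.card) * ((q + 1) * (Ic.card * Is.card)) : ℝ) *
      Fintype.card (Ix p q r)) *
      (4 * (β ^ 2 * (8 ^ r * ((R + (κ / 4)⁻¹ * (8 ^ r * (R * geo κ Λ ρ σ r J + 1))) *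
        geo κ Λ ρ σ r J + 1)) ^ 2) / η ^ 2) := by
  classical
  obtain ⟨P0, hP0⟩ : ∃ P0 : Cube n → Prop, ∀ z, P0 z ↔
      ∃ (a : Fin p → ℝ) (e : ℝ) (v : Sp n Y), ∑ i, |a i| ≤ Λ ∧ ‖v‖ = 1 ∧
      lin (Ham Letter.av w a) v = (e : ℂ) • v ∧ Few α κ e (Ham Letter.av w a) ∧
      ¬ NS G δ η w T z v := ⟨_, fun _ => Iff.rfl⟩
  obtain ⟨P1, hP1⟩ : ∃ P1 : Cube n → Prop, ∀ z, P1 z ↔
      ∃ (a : Fin p → ℝ) (e f : ℝ) (φ : Sp n Y), (∑ i, |a i| ≤ Λ ∧ ‖φ‖ = 1 ∧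
      lin (Ham (Letter.flt G δ z) w a) φ = (f : ℂ) • φ ∧
      Few α (κ / 2) e (Ham Letter.av w a) ∧ |f - e| ≤ κ / 8) ∧ ¬ NS G δ η w T z φ :=
    ⟨_, fun _ => Iff.rfl⟩
  have h0 := count0 hC hm hG w T hw hr hT hrT hR hN hη (S.filter P0) (fun z hz => by
    rw [mem_filter] at hz
    exact (hP0 z).1 hz.2)
  have h1 := count1 hC hm hG w T hw hr hT hrT hR hN hη ((S.filter fun z => ¬ P0 z).filter P1)
    (fun z hz => by
      rw [mem_filter] at hz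
      exact (hP1 z).1 hz.2)
  have h2 := count2 hC hm hG w T hw hr hT hrT hR hN hη
    ((S.filter fun z => ¬ P0 z).filter fun z => ¬ P1 z) (fun z hz => by
      rw [mem_filter, mem_filter] at hz
      by_contra hno
      refine hS z hz.1.1 ⟨fun a e v ha hv he hf => ?_, fun a e f φ ha hφ hf hfew hef => ?_,
        fun a e f φ ha hφ hf hfew hef o a' e' d v ha' hfew' he' hd0 hd1 hv heq => ?_⟩
      · by_contra hlt
        exact hz.1.2 ((hP0 z).2 ⟨a, e, v, ha, hv, he, hf, hlt⟩)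
      · by_contra hlt
        exact hz.2 ((hP1 z).2 ⟨a, e, f, φ, ⟨ha, hφ, hf, hfew, hef⟩, hlt⟩)
      · by_contra hlt
        exact hno ⟨a, e, f, φ, o, a', e', d, v, ⟨ha, hφ, hf, hfew, hef⟩,
          ⟨ha', hfew', he', hd0, hd1, hv, heq⟩, hlt⟩)
  have h3 := card_filter_add_card_filter_not (s := S) P0
  have h3' := card_filter_add_card_filter_not (s := S.filter fun z => ¬ P0 z) P1
  have h4 : (S.card : ℝ) = ((S.filter P0).card : ℝ) +
      (((S.filter fun z => ¬ P0 z).filter P1).card : ℝ) +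
      (((S.filter fun z => ¬ P0 z).filter fun z => ¬ P1 z).card : ℝ) := by
    rw [add_assoc]
    have h5 : (((S.filter fun z => ¬ P0 z).filter P1).card : ℝ) +
      (((S.filter fun z => ¬ P0 z).filter fun z => ¬ P1 z).card : ℝ) =
      ((S.filter fun z => ¬ P0 z).card : ℝ) := by exact_mod_cast h3'
    rw [h5]
    exact_mod_cast h3.symm
  rw [h4]
  exact add_le_add (add_le_add h0 h1) h2

end Pool.Agent.H73.AW
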