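import Pool.Agent.H73.AW.HamX
import Pool.Agent.H73.AD.Master
import Pool.Agent.H73.AD.Spec
import Pool.Agent.H73.AD.Cell

/-! Solutions of the equations in a cell form good families. -/

namespace Pool.Agent.H73.AW

open Finset Matrix Pool.Agent.H73.QA Pool.Agent.H73.AD

set_option linter.unusedSectionVars false

variable {n k m : ℕ} {Y : Type} [Fintype Y] [DecidableEq Y] {p q r : ℕ}

/-- constants of the argument -/
structure Consts (κ Λ ε δ ν ρ σ β R : ℝ) (n k J r : ℕ) : Prop where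
  κ0 : 0 < κ
  κ1 : κ ≤ 1
  Λ0 : 0 ≤ Λ
  ε0 : 0 ≤ ε
  ε1 : ε ≤ 1
  ν0 : 0 ≤ ν
  ρ0 : 0 ≤ ρ
  σ0 : 0 ≤ σ
  β0 : 0 ≤ β
  R0 : 0 ≤ R
  tot : 4 * ρ + Λ * (r * 2 ^ (r + 1)) * (ν + ε + 2 / Real.sqrt (2 ^ k)) ≤ σ
  iter : ((κ / 4)⁻¹ * (3 * σ)) ^ J * Real.sqrt (2 ^ n) ≤ β
  ball : ∀ x : Cube n, ((univ.filter fun z => x ∈ hball δ z).card : ℝ) ≤ β ^ 2

/-- growth factor -/
noncomputable def geo (κ Λ ρ σ : ℝ) (r J : ℕ) : ℝ :=
  ∑ j ∈ range J, ((κ / 4)⁻¹ * (8 ^ r * (4 * Λ + 12 * ρ) + 2 * σ)) ^ j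

theorem ball_sub {δ β : ℝ} (hb : ∀ x : Cube n,
    ((univ.filter fun z => x ∈ hball δ z).card : ℝ) ≤ β ^ 2) {Z : Type} [Fintype Z]
    (ζ : Z → Cube n) (hζ : Function.Injective ζ) (x : Cube n) :
    ((univ.filter fun z : Z => x ∈ hball δ (ζ z)).card : ℝ) ≤ β ^ 2 := by
  refine le_trans ?_ (hb x)
  have : (univ.filter fun z : Z => x ∈ hball δ (ζ z)).card ≤
      (univ.filter fun z : Cube n => x ∈ hball δ z).card :=
    card_le_card_of_injOn ζ (fun z hz => by simpa using hz) (hζ.injOn)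
  exact_mod_cast this

/-- families of solutions of `B z v z - f z v z = u z`, where `B z` is close to a fixed averaged
Hamiltonian -/
theorem famB {α κ Λ ε δ ν ρ σ β R cu θ : ℝ} {J : ℕ} (hC : Consts κ Λ ε δ ν ρ σ β R n k J r)
    (w : Fin p → List (Letter n m Y)) (hw : ∀ i, ∀ l ∈ w i, l.Ok k) (a0 : Fin p → ℝ)
    (ha0 : ∑ i, |a0 i| ≤ Λ) (hR : (2 : ℝ) ^ (α * n) ≤ R ^ 2)
    (hfew : ∃ hA : (Ham Letter.av w a0).IsHermitian,
      ((univ.filter fun i => hA.eigenvalues i < θ).card : ℝ) ≤ 2 ^ (α * n))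
    {Z : Type} [Fintype Z] (ζ : Z → Cube n) (hζ : Function.Injective ζ)
    (B : Z → Sp n Y →ₗ[ℂ] Sp n Y)
    (hB : GoodOp β (8 ^ r * (4 * Λ + 12 * ρ)) fun z => lin (Ham Letter.av w a0) - B z)
    (hBs : ∀ z x, ‖(lin (Ham Letter.av w a0) - B z) x‖ ≤ σ * ‖x‖)
    (f : Z → ℝ) (f0 : ℝ) (hf : ∀ z, |f z - f0| ≤ σ) (hθ : κ / 4 ≤ θ - f0)
    (v u : Z → Sp n Y) (hv : ∀ z, ‖v z‖ ≤ 1) (hu : Good β cu u)
    (heq : ∀ z, B z (v z) - (f z : ℂ) • v z = u z) :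
    Good β ((R + (κ / 4)⁻¹ * cu) * geo κ Λ ρ σ r J + 1) v := by
  have hκ4 : 0 < κ / 4 := by linarith [hC.κ0]
  obtain ⟨hA, hfew⟩ := hfew
  obtain ⟨S, hS, hdec⟩ := spec (κ := θ) (b := 1) (s := -f0) hA hκ4 (fun i hi => by linarith)
  have hcard : Real.sqrt (Fintype.card Z) ≤ Real.sqrt (2 ^ n) := by
    refine Real.sqrt_le_sqrt ?_
    have h1 := Fintype.card_le_of_injective ζ hζ
    have h2 : Fintype.card (Cube n) = 2 ^ n := by simp
    rw [h2] at h1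
    exact_mod_cast h1
  refine master (β := β) (σ := σ) (K0 := 8 ^ r * (4 * Λ + 12 * ρ)) (cu := cu) (b0 := 1)
    (s0 := -f0) (Λ' := 2 * Λ + 1) (r := R) hC.β0 hκ4 hC.σ0 (by linarith [hC.Λ0])
    (lin (Ham Letter.av w a0)) S hS (univ.filter fun i => hA.eigenvalues i < θ)
    (fun i => hA.eigenvectorBasis i) (fun i => (hA.eigenvectorBasis.orthonormal.1 i).le)
    (fun x hx => bessel hA _ x hx) hC.R0 (hfew.trans hR) hdec (fun x => ?_) (fun _ => 1)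
    (fun z => -f z) (fun z => ?_) (fun z => ?_) (fun z => lin (Ham Letter.av w a0) - B z) hB hBs
    v u hv hu (fun z => ?_) J ?_
  · have h1 := norm_ham_av w hw a0 ha0 x
    have h2 := norm_nonneg x
    linarith
  · rw [sub_self, abs_zero, zero_mul]
    exact hC.σ0
  · have h1 := hf z
    rw [abs_sub_comm] at h1
    have h2 : -f z - -f0 = f0 - f z := by ring
    rw [h2]
    exact h1
  · have h1 := heq z
    rw [← h1, LinearMap.sub_apply]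
    push_cast
    module
  · refine le_trans ?_ hC.iter
    refine mul_le_mul_of_nonneg_left hcard ?_
    have := hC.σ0
    positivity

/-- flattened Hamiltonians in a cell -/
theorem famF {α κ Λ ε δ ν ρ σ β R cu θ : ℝ} {J : ℕ} (hC : Consts κ Λ ε δ ν ρ σ β R n k J r)
    (hm : 0 < m) {G : Fin m → Clause n k} (hG : Typ ε δ ν G)
    (w : Fin p → List (Letter n m Y)) (hw : ∀ i, ∀ l ∈ w i, l.Ok k)
    (hr : ∀ i, (w i).length ≤ r) (a0 : Fin p → ℝ)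
    (ha0 : ∑ i, |a0 i| ≤ Λ) (hR : (2 : ℝ) ^ (α * n) ≤ R ^ 2)
    (hfew : ∃ hA : (Ham Letter.av w a0).IsHermitian,
      ((univ.filter fun i => hA.eigenvalues i < θ).card : ℝ) ≤ 2 ^ (α * n))
    {Z : Type} [Fintype Z] (ζ : Z → Cube n) (hζ : Function.Injective ζ)
    (a : Z → Fin p → ℝ) (ha : ∀ z, ∑ i, |a z i| ≤ Λ) (hc : ∀ z i, |a z i - a0 i| ≤ 2 * ρ / p)
    (f : Z → ℝ) (f0 : ℝ) (hf : ∀ z, |f z - f0| ≤ σ) (hθ : κ / 4 ≤ θ - f0)
    (v u : Z → Sp n Y) (hv : ∀ z, ‖v z‖ ≤ 1) (hu : Good β cu u)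
    (heq : ∀ z, lin (Ham (Letter.flt G δ (ζ z)) w (a z)) (v z) - (f z : ℂ) • v z = u z) :
    Good β ((R + (κ / 4)⁻¹ * cu) * geo κ Λ ρ σ r J + 1) v :=
  famB hC w hw a0 ha0 hR hfew ζ hζ (fun z => lin (Ham (Letter.flt G δ (ζ z)) w (a z)))
    (goodOp_ham hm hC.ε1 hG hC.β0 ζ (ball_sub hC.ball ζ hζ) w hw hr a0 a hC.ρ0 ha0 hc)
    (fun z x => (norm_pert hm hC.ε0 hC.ε1 hC.ν0 hG (ζ z) w hw hr a0 (a z) hC.ρ0 (ha z) (hc z)
      x).trans (mul_le_mul_of_nonneg_right hC.tot (norm_nonneg _))) f f0 hf hθ v u hv hu heq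

/-- averaged Hamiltonians in a cell -/
theorem famA {α κ Λ ε δ ν ρ σ β R cu θ : ℝ} {J : ℕ} (hC : Consts κ Λ ε δ ν ρ σ β R n k J r)
    (w : Fin p → List (Letter n m Y)) (hw : ∀ i, ∀ l ∈ w i, l.Ok k) (a0 : Fin p → ℝ)
    (ha0 : ∑ i, |a0 i| ≤ Λ) (hR : (2 : ℝ) ^ (α * n) ≤ R ^ 2)
    (hfew : ∃ hA : (Ham Letter.av w a0).IsHermitian,
      ((univ.filter fun i => hA.eigenvalues i < θ).card : ℝ) ≤ 2 ^ (α * n))
    {Z : Type} [Fintype Z] (ζ : Z → Cube n) (hζ : Function.Injective ζ)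
    (a : Z → Fin p → ℝ) (hc : ∀ z i, |a z i - a0 i| ≤ 2 * ρ / p)
    (f : Z → ℝ) (f0 : ℝ) (hf : ∀ z, |f z - f0| ≤ σ) (hθ : κ / 4 ≤ θ - f0)
    (v u : Z → Sp n Y) (hv : ∀ z, ‖v z‖ ≤ 1) (hu : Good β cu u)
    (heq : ∀ z, lin (Ham Letter.av w (a z)) (v z) - (f z : ℂ) • v z = u z) :
    Good β ((R + (κ / 4)⁻¹ * cu) * geo κ Λ ρ σ r J + 1) v := by
  have hp : ∑ _i : Fin p, 2 * ρ / (p : ℝ) ≤ 2 * ρ := by
    have hρ := hC.ρ0
    rw [sum_const, card_univ, Fintype.card_fin, nsmul_eq_mul]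
    rcases Nat.eq_zero_or_pos p with h0 | h0
    · subst h0; simp; linarith
    · have : (0 : ℝ) < p := by exact_mod_cast h0
      rw [mul_div_cancel₀ _ this.ne']
  have hdec : ∀ z, lin (Ham Letter.av w a0) - lin (Ham Letter.av w (a z)) =
      ∑ i, ((a0 i - a z i : ℝ) : ℂ) • sw Letter.av (w i) := by
    intro z
    rw [lin_ham adj_av, lin_ham adj_av, ← sum_sub_distrib]
    refine sum_congr rfl fun i _ => ?_
    rw [Complex.ofReal_sub, sub_smul]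
  have h8 : (1 : ℝ) ≤ 8 ^ r := one_le_pow₀ (by norm_num)
  refine famB hC w hw a0 ha0 hR hfew ζ hζ (fun z => lin (Ham Letter.av w (a z))) ?_
    (fun z x => ?_) f f0 hf hθ v u hv hu heq
  · have h1 : (fun z => lin (Ham Letter.av w a0) - lin (Ham Letter.av w (a z))) =
        fun z => ∑ i, ((a0 i - a z i : ℝ) : ℂ) • sw Letter.av (w i) := funext hdec
    rw [h1]
    have h2 : ∀ i, GoodOp β (2 * ρ / p * 2)
        (fun z => ((a0 i - a z i : ℝ) : ℂ) • sw Letter.av (w i)) := by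
      intro i
      have hρ := hC.ρ0
      refine (goodOp_fixed (β := β) (Z := Z) zero_le_two (sw Letter.av (w i))
        (norm_sw_av (hw i))).smul (by positivity) (fun z => ((a0 i - a z i : ℝ) : ℂ)) fun z => ?_
      rw [Complex.norm_real, Real.norm_eq_abs, abs_sub_comm]
      exact hc z i
    refine (GoodOp.sum hC.β0 univ fun i _ => h2 i).mono hC.β0 ?_
    rw [← sum_mul]
    have h3 : 4 * ρ * 1 ≤ 4 * ρ * 8 ^ r :=
      mul_le_mul_of_nonneg_left h8 (by linarith [hC.ρ0])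
    have h4 : 0 ≤ (8 : ℝ) ^ r * (4 * Λ + 8 * ρ) := by
      have := hC.Λ0
      have := hC.ρ0
      positivity
    nlinarith
  · rw [hdec z, LinearMap.sum_apply]
    have h3 : ‖∑ i, ((((a0 i - a z i : ℝ)) : ℂ) • sw Letter.av (w i)) x‖ ≤
        2 * ρ * (2 * ‖x‖) := by
      refine norm_comb_le (a := fun i => a0 i - a z i) ?_ (by positivity)
        (fun i => sw Letter.av (w i) x) fun i => norm_sw_av (hw i) x
      calc ∑ i, |a0 i - a z i| ≤ ∑ _i : Fin p, 2 * ρ / (p : ℝ) :=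
            sum_le_sum fun i _ => by rw [abs_sub_comm]; exact hc z i
        _ ≤ 2 * ρ := hp
    refine h3.trans ?_
    have h4 : 2 * ρ * 2 ≤ σ := by
      refine le_trans ?_ hC.tot
      have := hC.Λ0
      have := hC.ν0
      have := hC.ε0
      have h5 : 0 ≤ Λ * (r * 2 ^ (r + 1)) * (ν + ε + 2 / Real.sqrt (2 ^ k)) := by positivity
      linarith
    calc 2 * ρ * (2 * ‖x‖) = 2 * ρ * 2 * ‖x‖ := by ring
      _ ≤ σ * ‖x‖ := mul_le_mul_of_nonneg_right h4 (norm_nonneg _)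

end Pool.Agent.H73.AW
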