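import Pool.Agent.H73.AW.Stmt
import Pool.Agent.H73.AD.Flat

/-! Flattened letters and good assignments. -/

namespace Pool.Agent.H73.AW

open Finset Matrix Pool.Agent.H73.QA Pool.Agent.H73.AD

variable {n k m : ℕ} {Y : Type} [Fintype Y] [DecidableEq Y]

/-- the linear map of a matrix -/
noncomputable def lin (A : Op n Y) : Sp n Y →ₗ[ℂ] Sp n Y := toLpLin 2 2 A

/-- flattened letters: the cost is flattened near `z` -/
noncomputable def Letter.flt (G : Fin m → Clause n k) (δ : ℝ) (z : Cube n) :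
    Letter n m Y → Op n Y
  | .fix D => D
  | .cost => diagonal fun x =>
      ((2 ^ k / m * (viol G x.1 - if x.1 ∈ hball δ z then 0 else (Wn G z x.1 : ℝ)) : ℝ) : ℂ)
  | .cls h => ∑ j ∈ univ.filter (fun j => ¬ Violates z (G j)), h j

/-- adjoint letters -/
noncomputable def Letter.adj : Letter n m Y → Letter n m Y
  | .fix D => .fix Dᴴ
  | .cost => .cost
  | .cls h => .cls fun j => (h j)ᴴ

/-- adjoint words -/
noncomputable def adjW (w : List (Letter n m Y)) : List (Letter n m Y) := (w.map Letter.adj).reverse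

/-- evaluation of words -/
noncomputable def wd (f : Letter n m Y → Op n Y) (w : List (Letter n m Y)) : Op n Y := (w.map f).prod

variable {p q : ℕ}

/-- all words which occur -/
noncomputable def allW (w : Fin p → List (Letter n m Y)) (T : Fin q → List (Letter n m Y)) :
    Option (Fin p ⊕ Fin p ⊕ Fin q) → List (Letter n m Y)
  | none => []
  | some x => Sum.elim w (Sum.elim (fun i => adjW (w i)) T) x

/-- identity or one of the words `T j` -/
def Tw (T : Fin q → List (Letter n m Y)) : Option (Fin q) → List (Letter n m Y)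
  | none => []
  | some j => T j

/-- the images of `v` under all suffixes of the words have small near parts -/
def NS (G : Fin m → Clause n k) (δ η : ℝ) (w : Fin p → List (Letter n m Y))
    (T : Fin q → List (Letter n m Y)) (z : Cube n) (v : Sp n Y) : Prop :=
  ∀ x i, ‖nearP (hball δ z) (lin (wd (Letter.flt G δ z) ((allW w T x).drop i)) v)‖ ≤ η

/-- good assignments -/
structure GoodW (α κ Λ δ η : ℝ) (r : ℕ) (G : Fin m → Clause n k)
    (w : Fin p → List (Letter n m Y)) (T : Fin q → List (Letter n m Y)) (z : Cube n) : Prop where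
  g0 : ∀ (a : Fin p → ℝ) (e : ℝ) (v : Sp n Y), ∑ i, |a i| ≤ Λ → ‖v‖ = 1 →
    lin (Ham Letter.av w a) v = (e : ℂ) • v → Few α κ e (Ham Letter.av w a) →
    NS G δ η w T z v
  g1 : ∀ (a : Fin p → ℝ) (e f : ℝ) (φ : Sp n Y), ∑ i, |a i| ≤ Λ → ‖φ‖ = 1 →
    lin (Ham (Letter.flt G δ z) w a) φ = (f : ℂ) • φ → Few α (κ / 2) e (Ham Letter.av w a) →
    |f - e| ≤ κ / 8 → NS G δ η w T z φ
  g2 : ∀ (a : Fin p → ℝ) (e f : ℝ) (φ : Sp n Y), ∑ i, |a i| ≤ Λ → ‖φ‖ = 1 →
    lin (Ham (Letter.flt G δ z) w a) φ = (f : ℂ) • φ → Few α (κ / 2) e (Ham Letter.av w a) →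
    |f - e| ≤ κ / 8 →
    ∀ (o : Option (Fin q)) (a' : Fin p → ℝ) (e' d : ℝ) (v : Sp n Y), ∑ i, |a' i| ≤ Λ →
    Few α (κ / 2) e' (Ham Letter.av w a') → |e'| ≤ Λ * 2 ^ (r + 1) → 0 < d → d ≤ 1 → ‖v‖ ≤ 1 →
    lin (Ham (Letter.flt G δ z) w a') v - (e' : ℂ) • v =
      (d : ℂ) • lin (wd (Letter.flt G δ z) (Tw T o)) φ → NS G δ η w T z v

end Pool.Agent.H73.AW
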