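import Pool.Agent.H73.AW.Wd

/-! Bounds for the Hamiltonians. -/

namespace Pool.Agent.H73.AW

open Finset Matrix Pool.Agent.H73.QA Pool.Agent.H73.AD

set_option linter.unusedSectionVars false

variable {n k m : ℕ} {Y : Type} [Fintype Y] [DecidableEq Y] {p q r : ℕ}

/-- sum of a word and its adjoint -/
noncomputable def sw (f : Letter n m Y → Op n Y) (w : List (Letter n m Y)) :
    Sp n Y →ₗ[ℂ] Sp n Y := lin (wd f w) + lin (wd f (adjW w))

theorem lin_ham {f : Letter n m Y → Op n Y} (hf : ∀ l, f l.adj = (f l)ᴴ)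
    (w : Fin p → List (Letter n m Y)) (a : Fin p → ℝ) :
    lin (Ham f w a) = ∑ i, (a i : ℂ) • sw f (w i) := by
  rw [ham_eq hf, lin_sum]
  refine sum_congr rfl fun i _ => ?_
  rw [lin_smul, lin_add]
  rfl

/-- weighted sums -/
theorem norm_comb_le {a : Fin p → ℝ} {Λ B : ℝ} (ha : ∑ i, |a i| ≤ Λ) (hB : 0 ≤ B)
    (v : Fin p → Sp n Y) (hv : ∀ i, ‖v i‖ ≤ B) : ‖∑ i, (a i : ℂ) • v i‖ ≤ Λ * B := by
  calc ‖∑ i, (a i : ℂ) • v i‖ ≤ ∑ i, ‖(a i : ℂ) • v i‖ := norm_sum_le _ _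
    _ = ∑ i, |a i| * ‖v i‖ := by
        refine sum_congr rfl fun i _ => ?_
        rw [norm_smul, Complex.norm_real, Real.norm_eq_abs]
    _ ≤ ∑ i, |a i| * B := sum_le_sum fun i _ => mul_le_mul_of_nonneg_left (hv i) (abs_nonneg _)
    _ = (∑ i, |a i|) * B := by rw [sum_mul]
    _ ≤ Λ * B := mul_le_mul_of_nonneg_right ha hB

theorem pow_len_le {w : List (Letter n m Y)} (hr : w.length ≤ r) {K : ℝ} (hK : 1 ≤ K) :
    K ^ w.length ≤ K ^ r := pow_le_pow_right₀ hK hr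

theorem norm_ham_op {G : Fin m → Clause n k} {ε δ ν Λ : ℝ} (hm : 0 < m) (hε : ε ≤ 1)
    (hG : Typ ε δ ν G) (z : Cube n) (w : Fin p → List (Letter n m Y))
    (hw : ∀ i, ∀ l ∈ w i, l.Ok k) (hr : ∀ i, (w i).length ≤ r) (a : Fin p → ℝ)
    (ha : ∑ i, |a i| ≤ Λ) (u : Sp n Y) :
    ‖lin (Ham (Letter.op G z) w a) u‖ ≤ Λ * 2 ^ (r + 1) * ‖u‖ := by
  rw [lin_ham (adj_op G z), LinearMap.sum_apply, mul_assoc]
  refine norm_comb_le ha (by positivity) _ fun i => ?_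
  have h1 := norm_wd_op hm hε hG z (w i) (hw i) u
  have h2 := norm_wd_op hm hε hG z (adjW (w i)) (adjW_ok (hw i)) u
  rw [adjW_length] at h2
  have h3 := norm_add_le (lin (wd (Letter.op G z) (w i)) u) (lin (wd (Letter.op G z) (adjW (w i))) u)
  have h4 := mul_le_mul_of_nonneg_right (pow_len_le (hr i) (one_le_two (α := ℝ))) (norm_nonneg u)
  show ‖lin (wd (Letter.op G z) (w i)) u + lin (wd (Letter.op G z) (adjW (w i))) u‖ ≤ _
  rw [pow_succ]
  linarith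

theorem norm_ham_flt {G : Fin m → Clause n k} {ε δ ν Λ : ℝ} (hm : 0 < m) (hε : ε ≤ 1)
    (hG : Typ ε δ ν G) (z : Cube n) (w : Fin p → List (Letter n m Y))
    (hw : ∀ i, ∀ l ∈ w i, l.Ok k) (hr : ∀ i, (w i).length ≤ r) (a : Fin p → ℝ)
    (ha : ∑ i, |a i| ≤ Λ) (u : Sp n Y) :
    ‖lin (Ham (Letter.flt G δ z) w a) u‖ ≤ Λ * 2 ^ (r + 1) * ‖u‖ := by
  rw [lin_ham (adj_flt G δ z), LinearMap.sum_apply, mul_assoc]
  refine norm_comb_le ha (by positivity) _ fun i => ?_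
  have h1 := norm_wd_flt hm hε hG z (w i) (hw i) u
  have h2 := norm_wd_flt hm hε hG z (adjW (w i)) (adjW_ok (hw i)) u
  rw [adjW_length] at h2
  have h3 := norm_add_le (lin (wd (Letter.flt G δ z) (w i)) u)
    (lin (wd (Letter.flt G δ z) (adjW (w i))) u)
  have h4 := mul_le_mul_of_nonneg_right (pow_len_le (hr i) (one_le_two (α := ℝ))) (norm_nonneg u)
  show ‖lin (wd (Letter.flt G δ z) (w i)) u + lin (wd (Letter.flt G δ z) (adjW (w i))) u‖ ≤ _
  rw [pow_succ]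
  linarith

theorem norm_sw_av {w : List (Letter n m Y)} (hw : ∀ l ∈ w, l.Ok k) (u : Sp n Y) :
    ‖sw Letter.av w u‖ ≤ 2 * ‖u‖ := by
  have h1 := norm_wd_av w hw u
  have h2 := norm_wd_av (adjW w) (adjW_ok hw) u
  have h3 := norm_add_le (lin (wd Letter.av w) u) (lin (wd Letter.av (adjW w)) u)
  show ‖lin (wd Letter.av w) u + lin (wd Letter.av (adjW w)) u‖ ≤ _
  linarith

theorem norm_ham_av {Λ : ℝ} (w : Fin p → List (Letter n m Y))
    (hw : ∀ i, ∀ l ∈ w i, l.Ok k) (a : Fin p → ℝ)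
    (ha : ∑ i, |a i| ≤ Λ) (u : Sp n Y) :
    ‖lin (Ham Letter.av w a) u‖ ≤ Λ * (2 * ‖u‖) := by
  rw [lin_ham adj_av, LinearMap.sum_apply]
  exact norm_comb_le ha (by positivity) _ fun i => norm_sw_av (hw i) u

theorem norm_sw_diff {G : Fin m → Clause n k} {ε δ ν : ℝ} (hm : 0 < m) (hε0 : 0 ≤ ε) (hε : ε ≤ 1)
    (hν : 0 ≤ ν) (hG : Typ ε δ ν G) (z : Cube n) {w : List (Letter n m Y)}
    (hw : ∀ l ∈ w, l.Ok k) (hr : w.length ≤ r) (u : Sp n Y) :
    ‖(sw Letter.av w - sw (Letter.flt G δ z) w) u‖ ≤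
      (r * 2 ^ (r + 1)) * (ν + ε + 2 / Real.sqrt (2 ^ k)) * ‖u‖ := by
  have h1 := wd_av_flt hm hε0 hε hν hG z w hw u
  have h2 := wd_av_flt hm hε0 hε hν hG z (adjW w) (adjW_ok hw) u
  rw [adjW_length] at h2
  have h3 : (sw Letter.av w - sw (Letter.flt G δ z) w) u =
      (lin (wd Letter.av w) u - lin (wd (Letter.flt G δ z) w) u) +
      (lin (wd Letter.av (adjW w)) u - lin (wd (Letter.flt G δ z) (adjW w)) u) := by
    show (lin (wd Letter.av w) u + lin (wd Letter.av (adjW w)) u) -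
      (lin (wd (Letter.flt G δ z) w) u + lin (wd (Letter.flt G δ z) (adjW w)) u) = _
    abel
  rw [h3]
  refine (norm_add_le _ _).trans ?_
  have h4 : (w.length : ℝ) * 2 ^ w.length ≤ r * 2 ^ r := by
    have h5 : (w.length : ℝ) ≤ r := by exact_mod_cast hr
    exact mul_le_mul h5 (pow_len_le hr one_le_two) (by positivity) (by positivity)
  have h6 : (w.length : ℝ) * 2 ^ w.length * (ν + ε + 2 / Real.sqrt (2 ^ k)) * ‖u‖ ≤
      r * 2 ^ r * (ν + ε + 2 / Real.sqrt (2 ^ k)) * ‖u‖ :=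
    mul_le_mul_of_nonneg_right (mul_le_mul_of_nonneg_right h4 (by positivity)) (norm_nonneg _)
  rw [pow_succ]
  linarith

/-- averaged versus flattened Hamiltonian -/
theorem ham_av_flt {G : Fin m → Clause n k} {ε δ ν Λ : ℝ} (hm : 0 < m) (hε0 : 0 ≤ ε) (hε : ε ≤ 1)
    (hν : 0 ≤ ν) (hG : Typ ε δ ν G) (z : Cube n) (w : Fin p → List (Letter n m Y))
    (hw : ∀ i, ∀ l ∈ w i, l.Ok k) (hr : ∀ i, (w i).length ≤ r) (a : Fin p → ℝ)
    (ha : ∑ i, |a i| ≤ Λ) (u : Sp n Y) :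
    ‖lin (Ham Letter.av w a) u - lin (Ham (Letter.flt G δ z) w a) u‖ ≤
      Λ * (r * 2 ^ (r + 1)) * (ν + ε + 2 / Real.sqrt (2 ^ k)) * ‖u‖ := by
  rw [lin_ham adj_av, lin_ham (adj_flt G δ z), LinearMap.sum_apply, LinearMap.sum_apply,
    ← sum_sub_distrib]
  have h1 : ∀ i, ((a i : ℂ) • sw Letter.av (w i)) u - ((a i : ℂ) • sw (Letter.flt G δ z) (w i)) u =
      (a i : ℂ) • (sw Letter.av (w i) - sw (Letter.flt G δ z) (w i)) u := by
    intro i
    rw [LinearMap.smul_apply, LinearMap.smul_apply, LinearMap.sub_apply, smul_sub]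
  simp only [h1]
  rw [mul_assoc, mul_assoc, ← mul_assoc ((r : ℝ) * 2 ^ (r + 1))]
  exact norm_comb_le ha (by positivity) _ fun i =>
    norm_sw_diff hm hε0 hε hν hG z (hw i) (hr i) u

/-- flattened versus actual Hamiltonian -/
theorem ham_diff {G : Fin m → Clause n k} {ε δ ν η Λ : ℝ} (hm : 0 < m) (hε : ε ≤ 1)
    (hG : Typ ε δ ν G) (hη : 0 ≤ η) (z : Cube n) (w : Fin p → List (Letter n m Y))
    (T : Fin q → List (Letter n m Y)) (hw : ∀ i, ∀ l ∈ w i, l.Ok k)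
    (hr : ∀ i, (w i).length ≤ r) (a : Fin p → ℝ) (ha : ∑ i, |a i| ≤ Λ) (u : Sp n Y)
    (hu : NS G δ η w T z u) :
    ‖lin (Ham (Letter.flt G δ z) w a) u - lin (Ham (Letter.op G z) w a) u‖ ≤
      Λ * 2 ^ (r + 2) * η := by
  rw [lin_ham (adj_op G z), lin_ham (adj_flt G δ z), LinearMap.sum_apply, LinearMap.sum_apply,
    ← sum_sub_distrib]
  have h1 : ∀ i, ((a i : ℂ) • sw (Letter.flt G δ z) (w i)) u -
      ((a i : ℂ) • sw (Letter.op G z) (w i)) u =
      (a i : ℂ) • (sw (Letter.flt G δ z) (w i) u - sw (Letter.op G z) (w i) u) := by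
    intro i
    rw [LinearMap.smul_apply, LinearMap.smul_apply, smul_sub]
  simp only [h1]
  rw [mul_assoc]
  refine norm_comb_le ha (by positivity) _ fun i => ?_
  have h2 := wd_diff hm hε hG hη z (w i) (hw i) u (fun j => hu (some (Sum.inl i)) j)
  have h3 := wd_diff hm hε hG hη z (adjW (w i)) (adjW_ok (hw i)) u
    (fun j => hu (some (Sum.inr (Sum.inl i))) j)
  rw [adjW_length] at h3
  have h4 : sw (Letter.flt G δ z) (w i) u - sw (Letter.op G z) (w i) u =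
      (lin (wd (Letter.flt G δ z) (w i)) u - lin (wd (Letter.op G z) (w i)) u) +
      (lin (wd (Letter.flt G δ z) (adjW (w i))) u - lin (wd (Letter.op G z) (adjW (w i))) u) := by
    show (lin (wd (Letter.flt G δ z) (w i)) u + lin (wd (Letter.flt G δ z) (adjW (w i))) u) -
      (lin (wd (Letter.op G z) (w i)) u + lin (wd (Letter.op G z) (adjW (w i))) u) = _
    abel
  rw [h4]
  refine (norm_add_le _ _).trans ?_
  have h5 : (2 : ℝ) ^ ((w i).length + 1) ≤ 2 ^ (r + 1) :=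
    pow_le_pow_right₀ one_le_two (by have := hr i; omega)
  have h6 := mul_le_mul_of_nonneg_right h5 hη
  have h7 : (2 : ℝ) ^ (r + 2) = 2 ^ (r + 1) * 2 := by rw [← pow_succ]
  rw [h7]
  linarith

/-- without the cost there is nothing to flatten -/
theorem ham_start {G : Fin m → Clause n k} {δ : ℝ} (z : Cube n) (w : Fin p → List (Letter n m Y))
    (a : Fin p → ℝ) (ha : ∀ i, a i ≠ 0 → Letter.cost ∉ w i) :
    Ham (Letter.flt G δ z) w a = Ham (Letter.op G z) w a := by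
  unfold Ham
  refine sum_congr rfl fun i _ => ?_
  by_cases h0 : a i = 0
  · rw [h0]
    simp
  · have h1 : (w i).map (Letter.flt G δ z) = (w i).map (Letter.op G z) := by
      apply List.map_congr_left
      intro l hl
      cases l with
      | fix D => rfl
      | cost => exact absurd hl (ha i h0)
      | cls h => rfl
    rw [h1]

/-- the perturbation of a family of Hamiltonians in a cell -/
theorem goodOp_ham {G : Fin m → Clause n k} {ε δ ν β Λ ρ : ℝ} (hm : 0 < m) (hε : ε ≤ 1)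
    (hG : Typ ε δ ν G) {Z : Type} [Fintype Z] (hβ : 0 ≤ β) (ζ : Z → Cube n)
    (hB : ∀ x, ((univ.filter fun z => x ∈ hball δ (ζ z)).card : ℝ) ≤ β ^ 2)
    (w : Fin p → List (Letter n m Y)) (hw : ∀ i, ∀ l ∈ w i, l.Ok k)
    (hr : ∀ i, (w i).length ≤ r) (a0 : Fin p → ℝ) (a : Z → Fin p → ℝ) (hρ : 0 ≤ ρ)
    (ha0 : ∑ i, |a0 i| ≤ Λ) (hc : ∀ z i, |a z i - a0 i| ≤ 2 * ρ / p) :
    GoodOp β (8 ^ r * (4 * Λ + 12 * ρ))
      (fun z => lin (Ham Letter.av w a0) - lin (Ham (Letter.flt G δ (ζ z)) w (a z))) := by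
  have h8 : (1 : ℝ) ≤ 8 ^ r := one_le_pow₀ (by norm_num)
  have hp : ∑ _i : Fin p, 2 * ρ / (p : ℝ) ≤ 2 * ρ := by
    rw [sum_const, card_univ, Fintype.card_fin, nsmul_eq_mul]
    rcases Nat.eq_zero_or_pos p with h0 | h0
    · subst h0; simp; linarith
    · have : (0 : ℝ) < p := by exact_mod_cast h0
      rw [mul_div_cancel₀ _ this.ne']
  have hdec : (fun z => lin (Ham Letter.av w a0) - lin (Ham (Letter.flt G δ (ζ z)) w (a z))) =
      fun z => ∑ i, (((a0 i - a z i : ℝ) : ℂ) • sw Letter.av (w i) +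
        (a z i : ℂ) • (sw Letter.av (w i) + (-1 : ℂ) • sw (Letter.flt G δ (ζ z)) (w i))) := by
    funext z
    rw [lin_ham adj_av, lin_ham (adj_flt G δ (ζ z)), ← sum_sub_distrib]
    refine sum_congr rfl fun i _ => ?_
    rw [Complex.ofReal_sub, neg_one_smul, smul_add, smul_neg, sub_smul]
    abel
  rw [hdec]
  have hi : ∀ i, GoodOp β (2 * ρ / p * 2 + (|a0 i| + 2 * ρ / p) * (2 + 1 * (8 ^ r + 8 ^ r)))
      (fun z => ((a0 i - a z i : ℝ) : ℂ) • sw Letter.av (w i) +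
        (a z i : ℂ) • (sw Letter.av (w i) + (-1 : ℂ) • sw (Letter.flt G δ (ζ z)) (w i))) := by
    intro i
    have hp0 : 0 ≤ 2 * ρ / (p : ℝ) := by positivity
    have g1 := goodOp_fixed (β := β) (Z := Z) zero_le_two (sw Letter.av (w i))
      (norm_sw_av (hw i))
    have g2 : GoodOp β (8 ^ r + 8 ^ r) (fun z => sw (Letter.flt G δ (ζ z)) (w i)) := by
      refine GoodOp.add ?_ ?_
      · exact (goodOp_wd hm hε hG hβ ζ hB (w i) (hw i)).mono hβ (pow_len_le (hr i) (by norm_num))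
      · have h1 := goodOp_wd hm hε hG hβ ζ hB (adjW (w i)) (adjW_ok (hw i))
        rw [adjW_length] at h1
        exact h1.mono hβ (pow_len_le (hr i) (by norm_num))
    refine (g1.smul hp0 (fun z => ((a0 i - a z i : ℝ) : ℂ)) fun z => ?_).add
      ((g1.add (g2.smul zero_le_one (fun _ => (-1 : ℂ)) fun _ => by simp)).smul
        (by positivity) (fun z => (a z i : ℂ)) fun z => ?_)
    · rw [Complex.norm_real, Real.norm_eq_abs, abs_sub_comm]
      exact hc z i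
    · rw [Complex.norm_real, Real.norm_eq_abs]
      have h1 := hc z i
      have h2 : |a z i| ≤ |a z i - a0 i| + |a0 i| := by
        have := abs_add_le (a z i - a0 i) (a0 i)
        rwa [sub_add_cancel] at this
      linarith
  refine (GoodOp.sum hβ univ fun i _ => hi i).mono hβ ?_
  have h2 : ∑ i : Fin p, (2 * ρ / p * 2 + (|a0 i| + 2 * ρ / p) * (2 + 1 * (8 ^ r + 8 ^ r))) =
      (∑ _i : Fin p, 2 * ρ / (p : ℝ)) * 2 + (∑ i, |a0 i| + ∑ _i : Fin p, 2 * ρ / (p : ℝ)) *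
        (2 + 1 * ((8 : ℝ) ^ r + 8 ^ r)) := by
    rw [sum_add_distrib, ← sum_mul, ← sum_mul, sum_add_distrib]
  rw [h2]
  have h3 : (2 : ℝ) + 1 * (8 ^ r + 8 ^ r) ≤ 4 * 8 ^ r := by linarith
  have h4 : ∑ i, |a0 i| + ∑ _i : Fin p, 2 * ρ / (p : ℝ) ≤ Λ + 2 * ρ := add_le_add ha0 hp
  have h5 : 0 ≤ Λ + 2 * ρ := by
    have : 0 ≤ Λ := (sum_nonneg fun i _ => abs_nonneg (a0 i)).trans ha0
    linarith
  have h6 : (∑ i, |a0 i| + ∑ _i : Fin p, 2 * ρ / (p : ℝ)) * (2 + 1 * ((8 : ℝ) ^ r + 8 ^ r)) ≤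
      (Λ + 2 * ρ) * (4 * 8 ^ r) :=
    mul_le_mul h4 h3 (by positivity) h5
  have h7 : (∑ _i : Fin p, 2 * ρ / (p : ℝ)) * 2 ≤ 4 * ρ * 8 ^ r := by
    have : 4 * ρ * 1 ≤ 4 * ρ * 8 ^ r := mul_le_mul_of_nonneg_left h8 (by positivity)
    linarith
  calc _ ≤ 4 * ρ * 8 ^ r + (Λ + 2 * ρ) * (4 * 8 ^ r) := add_le_add h7 h6
    _ = 8 ^ r * (4 * Λ + 12 * ρ) := by ring

/-- norm of the perturbation -/
theorem norm_pert {G : Fin m → Clause n k} {ε δ ν Λ ρ : ℝ} (hm : 0 < m) (hε0 : 0 ≤ ε)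
    (hε : ε ≤ 1) (hν : 0 ≤ ν) (hG : Typ ε δ ν G) (z : Cube n)
    (w : Fin p → List (Letter n m Y)) (hw : ∀ i, ∀ l ∈ w i, l.Ok k)
    (hr : ∀ i, (w i).length ≤ r) (a0 a : Fin p → ℝ) (hρ : 0 ≤ ρ)
    (ha : ∑ i, |a i| ≤ Λ) (hc : ∀ i, |a i - a0 i| ≤ 2 * ρ / p) (u : Sp n Y) :
    ‖(lin (Ham Letter.av w a0) - lin (Ham (Letter.flt G δ z) w a)) u‖ ≤
      (4 * ρ + Λ * (r * 2 ^ (r + 1)) * (ν + ε + 2 / Real.sqrt (2 ^ k))) * ‖u‖ := by
  have h1 := ham_av_flt hm hε0 hε hν hG z w hw hr a ha u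
  have h2 : lin (Ham Letter.av w a0) u - lin (Ham Letter.av w a) u =
      ∑ i, (((a0 i - a i : ℝ)) : ℂ) • sw Letter.av (w i) u := by
    rw [lin_ham adj_av, lin_ham adj_av, LinearMap.sum_apply, LinearMap.sum_apply,
      ← sum_sub_distrib]
    refine sum_congr rfl fun i _ => ?_
    rw [LinearMap.smul_apply, LinearMap.smul_apply, Complex.ofReal_sub, sub_smul]
  have h3 : ‖∑ i, (((a0 i - a i : ℝ)) : ℂ) • sw Letter.av (w i) u‖ ≤ 2 * ρ * (2 * ‖u‖) := by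
    refine norm_comb_le (a := fun i => a0 i - a i) ?_ (by positivity) _
      fun i => norm_sw_av (hw i) u
    calc ∑ i, |a0 i - a i| ≤ ∑ _i : Fin p, 2 * ρ / (p : ℝ) :=
          sum_le_sum fun i _ => by rw [abs_sub_comm]; exact hc i
      _ ≤ 2 * ρ := by
          rw [sum_const, card_univ, Fintype.card_fin, nsmul_eq_mul]
          rcases Nat.eq_zero_or_pos p with h0 | h0
          · subst h0; simp; linarith
          · have : (0 : ℝ) < p := by exact_mod_cast h0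
            rw [mul_div_cancel₀ _ this.ne']
  rw [LinearMap.sub_apply]
  have h4 : lin (Ham Letter.av w a0) u - lin (Ham (Letter.flt G δ z) w a) u =
      (lin (Ham Letter.av w a0) u - lin (Ham Letter.av w a) u) +
      (lin (Ham Letter.av w a) u - lin (Ham (Letter.flt G δ z) w a) u) := by abel
  rw [h4]
  refine (norm_add_le _ _).trans ?_
  rw [h2]
  linarith

end Pool.Agent.H73.AW
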