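import Pool.Agent.H73.AW.Flat
import Pool.Agent.H73.AD.XOp
import Pool.Agent.H73.AD.QOp

/-! Bounds for letters. -/

namespace Pool.Agent.H73.AW

open Finset Matrix Pool.Agent.H73.QA Pool.Agent.H73.AD

set_option linter.unusedSectionVars false

variable {n k m : ℕ} {Y : Type} [Fintype Y] [DecidableEq Y]

theorem lin_mul (A B : Op n Y) : lin (A * B) = lin A ∘ₗ lin B := by
  unfold lin
  exact toLpLin_mul 2 2 2 A B

theorem lin_one : lin (1 : Op n Y) = LinearMap.id := by
  unfold lin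
  exact toLpLin_one 2

theorem lin_apply (A : Op n Y) (u : Sp n Y) (x : Cube n × Y) : lin A u x = (A *ᵥ u.ofLp) x := by
  unfold lin
  rw [toLpLin_apply]

theorem lin_add (A B : Op n Y) : lin (A + B) = lin A + lin B := by
  unfold lin
  exact map_add _ _ _

theorem lin_smul (c : ℂ) (A : Op n Y) : lin (c • A) = c • lin A := by
  unfold lin
  exact map_smul _ _ _

theorem lin_sum {ι : Type} (s : Finset ι) (A : ι → Op n Y) : lin (∑ i ∈ s, A i) = ∑ i ∈ s, lin (A i) := by
  unfold lin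
  exact map_sum _ _ _

theorem lin_diag (f : Cube n → ℂ) :
    lin (diagonal fun x : Cube n × Y => f x.1) = dg f := by
  ext u x
  rw [lin_apply, mulVec_diagonal, dg_apply]

theorem norm_lin_of_bdd {A : Op n Y} {a : ℝ} (ha : 0 ≤ a) (hA : Bdd A a) (u : Sp n Y) :
    ‖lin A u‖ ≤ a * ‖u‖ := norm_of_bdd ha hA u

/-- bound for the number of violated clauses -/
theorem Typ.viol_le {G : Fin m → Clause n k} {ε δ ν : ℝ} (hε : ε ≤ 1) (hG : Typ ε δ ν G)
    (x : Cube n) : (viol G x : ℝ) ≤ 2 * (m / 2 ^ k) := by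
  have h1 := (abs_le.1 (hG.t1 x)).2
  have h2 : ε * ((m : ℝ) / 2 ^ k) ≤ 1 * (m / 2 ^ k) :=
    mul_le_mul_of_nonneg_right hε (by positivity)
  linarith

theorem Wn_le_viol (G : Fin m → Clause n k) (z x : Cube n) : (Wn G z x : ℝ) ≤ viol G x := by
  have : Wn G z x ≤ viol G x := by
    unfold Wn viol
    exact card_le_card fun j hj => by
      simp only [mem_filter, mem_univ, true_and] at hj ⊢
      exact hj.2
  exact_mod_cast this

theorem cls_eq (G : Fin m → Clause n k) (z : Cube n) (h : Fin m → Op n Y) :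
    lin (Letter.op G z (.cls h)) = lin (∑ j, h j) - vterm G (fun _ : Fin 1 => h) z 0 := by
  unfold Letter.op vterm
  rw [lin_sum, lin_sum, eq_sub_iff_add_eq, sum_filter, ← sum_add_distrib]
  refine sum_congr rfl fun j _ => ?_
  by_cases hj : Violates z (G j)
  · simp only [hj, not_true_eq_false, if_false, if_true, one_smul, zero_add]
    rfl
  · simp only [hj, not_false_eq_true, if_true, if_false, zero_smul, add_zero]

/-- sums of clause terms -/
theorem norm_cls {G : Fin m → Clause n k} {ε δ ν : ℝ} (hm : 0 < m) (hε : ε ≤ 1)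
    (hG : Typ ε δ ν G) (z : Cube n) {h : Fin m → Op n Y} (hh : (Letter.cls h).Ok k)
    (u : Sp n Y) : ‖lin (Letter.op G z (.cls h)) u‖ ≤ 2 * ‖u‖ := by
  have hm' : (0 : ℝ) < m := by exact_mod_cast hm
  have h2 : (0 : ℝ) < 2 ^ k := by positivity
  have hs : (0 : ℝ) < Real.sqrt (2 ^ k) := Real.sqrt_pos.2 h2
  rcases le_or_gt k 2 with hk | hk
  · -- all terms
    have h1 : ‖lin (Letter.op G z (.cls h)) u‖ ≤ ∑ j : Fin m, Real.sqrt (2 ^ k) / m * ‖u‖ := by
      unfold Letter.op
      rw [lin_sum, LinearMap.sum_apply]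
      refine (norm_sum_le _ _).trans ?_
      refine (sum_le_sum fun j _ => norm_lin_of_bdd (by positivity) (hh.2 j) u).trans ?_
      exact sum_le_sum_of_subset_of_nonneg (filter_subset _ _) fun j _ _ => by positivity
    have h3 : Real.sqrt (2 ^ k) ≤ 2 := by
      rw [Real.sqrt_le_left (by norm_num)]
      have : (2 : ℝ) ^ k ≤ 2 ^ 2 := pow_le_pow_right₀ one_le_two hk
      linarith
    rw [sum_const, card_univ, Fintype.card_fin, nsmul_eq_mul] at h1
    calc _ ≤ _ := h1
      _ = Real.sqrt (2 ^ k) * ‖u‖ := by field_simp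
      _ ≤ _ := mul_le_mul_of_nonneg_right h3 (norm_nonneg _)
  · rw [cls_eq, LinearMap.sub_apply]
    have h1 := norm_lin_of_bdd zero_le_one hh.1 u
    have h3 := norm_vterm hm G (fun _ : Fin 1 => h) (fun _ j => hh.2 j)
      (fun x => Typ.viol_le hε hG x) z 0 u
    have h4 : 2 / Real.sqrt (2 ^ k) ≤ 1 := by
      rw [div_le_one hs]
      refine Real.le_sqrt_of_sq_le ?_
      exact pow_le_pow_right₀ one_le_two hk.le
    have h5 : 2 / Real.sqrt (2 ^ k) * ‖u‖ ≤ 1 * ‖u‖ :=
      mul_le_mul_of_nonneg_right h4 (norm_nonneg _)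
    have h6 := norm_sub_le (lin (∑ j, h j) u) (vterm G (fun _ : Fin 1 => h) z 0 u)
    linarith

theorem norm_op_le {G : Fin m → Clause n k} {ε δ ν : ℝ} (hm : 0 < m) (hε : ε ≤ 1)
    (hG : Typ ε δ ν G) (z : Cube n) {l : Letter n m Y} (hl : l.Ok k) (u : Sp n Y) :
    ‖lin (l.op G z) u‖ ≤ 2 * ‖u‖ := by
  have hm' : (0 : ℝ) < m := by exact_mod_cast hm
  cases l with
  | fix D =>
    have h1 := norm_lin_of_bdd zero_le_one hl u
    have h2 := norm_nonneg u
    show ‖lin D u‖ ≤ 2 * ‖u‖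
    linarith
  | cost =>
    show ‖lin (diagonal fun x : Cube n × Y => ((2 ^ k / m * pviol G z x.1 : ℝ) : ℂ)) u‖ ≤ _
    rw [lin_diag (fun x => ((2 ^ k / m * pviol G z x : ℝ) : ℂ))]
    refine norm_dg_le zero_le_two (fun x => ?_) u
    rw [Complex.norm_real, Real.norm_eq_abs, abs_of_nonneg (by positivity)]
    have h1 : (pviol G z x : ℝ) ≤ 2 * (m / 2 ^ k) := by
      rw [pviol_eq]
      have := Typ.viol_le hε hG x
      have h2 : (0 : ℝ) ≤ Wn G z x := Nat.cast_nonneg _
      linarith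
    calc (2 : ℝ) ^ k / m * pviol G z x ≤ 2 ^ k / m * (2 * (m / 2 ^ k)) :=
          mul_le_mul_of_nonneg_left h1 (by positivity)
      _ = 2 := by field_simp
  | cls h => exact norm_cls hm hε hG z hl u

theorem norm_flt_le {G : Fin m → Clause n k} {ε δ ν : ℝ} (hm : 0 < m) (hε : ε ≤ 1)
    (hG : Typ ε δ ν G) (z : Cube n) {l : Letter n m Y} (hl : l.Ok k) (u : Sp n Y) :
    ‖lin (l.flt G δ z) u‖ ≤ 2 * ‖u‖ := by
  have hm' : (0 : ℝ) < m := by exact_mod_cast hm
  cases l with
  | fix D =>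
    have h1 := norm_lin_of_bdd zero_le_one hl u
    have h2 := norm_nonneg u
    show ‖lin D u‖ ≤ 2 * ‖u‖
    linarith
  | cost =>
    show ‖lin (diagonal fun x : Cube n × Y => ((2 ^ k / m *
      (viol G x.1 - if x.1 ∈ hball δ z then 0 else (Wn G z x.1 : ℝ)) : ℝ) : ℂ)) u‖ ≤ _
    rw [lin_diag (fun x => ((2 ^ k / m *
      (viol G x - if x ∈ hball δ z then 0 else (Wn G z x : ℝ)) : ℝ) : ℂ))]
    refine norm_dg_le zero_le_two (fun x => ?_) u
    have h0 : 0 ≤ (viol G x : ℝ) - (if x ∈ hball δ z then 0 else (Wn G z x : ℝ)) := by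
      have := Wn_le_viol G z x
      split_ifs
      · rw [sub_zero]; exact Nat.cast_nonneg _
      · linarith
    have h1 : (viol G x : ℝ) - (if x ∈ hball δ z then 0 else (Wn G z x : ℝ)) ≤
        2 * (m / 2 ^ k) := by
      have := Typ.viol_le hε hG x
      have h2 : (0 : ℝ) ≤ Wn G z x := Nat.cast_nonneg _
      split_ifs <;> linarith
    rw [Complex.norm_real, Real.norm_eq_abs, abs_of_nonneg (mul_nonneg (by positivity) h0)]
    calc _ ≤ (2 : ℝ) ^ k / m * (2 * (m / 2 ^ k)) := mul_le_mul_of_nonneg_left h1 (by positivity)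
      _ = 2 := by field_simp
  | cls h => exact norm_cls hm hε hG z hl u

theorem norm_av_le {l : Letter n m Y} (hl : l.Ok k) (u : Sp n Y) : ‖lin l.av u‖ ≤ ‖u‖ := by
  cases l with
  | fix D =>
    have h1 := norm_lin_of_bdd zero_le_one hl u
    rwa [one_mul] at h1
  | cost =>
    show ‖lin (1 : Op n Y) u‖ ≤ _
    rw [lin_one]
    exact le_rfl
  | cls h =>
    have h1 := norm_lin_of_bdd zero_le_one hl.1 u
    rwa [one_mul] at h1

/-- the flattened cost -/
theorem flt_cost_eq (G : Fin m → Clause n k) (hm : 0 < m) (δ : ℝ) (z : Cube n) :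
    lin (Letter.flt G δ z (.cost : Letter n m Y)) = LinearMap.id - Xop G δ z 0 0 0 := by
  have hm' : (m : ℂ) ≠ 0 := by exact_mod_cast hm.ne'
  show lin (diagonal fun x : Cube n × Y => ((2 ^ k / m *
      (viol G x.1 - if x.1 ∈ hball δ z then 0 else (Wn G z x.1 : ℝ)) : ℝ) : ℂ)) = _
  rw [lin_diag (fun x => ((2 ^ k / m *
      (viol G x - if x ∈ hball δ z then 0 else (Wn G z x : ℝ)) : ℝ) : ℂ))]
  ext u x
  unfold Xop
  simp only [LinearMap.add_apply, LinearMap.sub_apply, LinearMap.smul_apply, PiLp.add_apply,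
    PiLp.sub_apply, PiLp.smul_apply, smul_eq_mul, dg_apply, LinearMap.id_apply, sub_self,
    LinearMap.zero_apply, PiLp.zero_apply, mul_zero, zero_add]
  by_cases hx : x.1 ∈ hball δ z
  · simp only [hx, if_true]
    push_cast
    field_simp
    ring
  · simp only [hx, if_false]
    push_cast
    field_simp
    ring

theorem av_flt_le {G : Fin m → Clause n k} {ε δ ν : ℝ} (hm : 0 < m) (hε0 : 0 ≤ ε) (hε : ε ≤ 1)
    (hν : 0 ≤ ν) (hG : Typ ε δ ν G) (z : Cube n) {l : Letter n m Y} (hl : l.Ok k) (u : Sp n Y) :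
    ‖lin l.av u - lin (l.flt G δ z) u‖ ≤ (ν + ε + 2 / Real.sqrt (2 ^ k)) * ‖u‖ := by
  have hs : 0 ≤ 2 / Real.sqrt (2 ^ k) := by positivity
  cases l with
  | fix D =>
    show ‖lin D u - lin D u‖ ≤ _
    rw [sub_self, norm_zero]
    positivity
  | cost =>
    rw [flt_cost_eq G hm δ z]
    show ‖lin (1 : Op n Y) u - _‖ ≤ _
    rw [lin_one, LinearMap.sub_apply, sub_sub_cancel]
    have h1 := norm_Xop_le (y := 0) hm hε0 hν hG z (0 : Op n Y) 0 (le_refl (0 : ℝ)) zero_le_one
      (fun u => by simp) u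
    refine h1.trans (mul_le_mul_of_nonneg_right (by linarith) (norm_nonneg _))
  | cls h =>
    have h0 : lin (Letter.flt G δ z (.cls h)) = lin (Letter.op G z (.cls h)) := rfl
    rw [h0, cls_eq]
    show ‖lin (∑ j, h j) u - _‖ ≤ _
    rw [LinearMap.sub_apply, sub_sub_cancel]
    have h3 := norm_vterm hm G (fun _ : Fin 1 => h) (fun _ j => hl.2 j)
      (fun x => Typ.viol_le hε hG x) z 0 u
    refine h3.trans (mul_le_mul_of_nonneg_right (by linarith) (norm_nonneg _))

theorem flt_op_le {G : Fin m → Clause n k} {ε δ ν : ℝ} (hm : 0 < m) (hε : ε ≤ 1)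
    (hG : Typ ε δ ν G) (z : Cube n) (l : Letter n m Y) (u : Sp n Y) :
    ‖lin (l.flt G δ z) u - lin (l.op G z) u‖ ≤ 2 * ‖nearP (hball δ z) u‖ := by
  have hm' : (0 : ℝ) < m := by exact_mod_cast hm
  cases l with
  | fix D =>
    show ‖lin D u - lin D u‖ ≤ _
    rw [sub_self, norm_zero]
    positivity
  | cost =>
    have h1 : lin (Letter.flt G δ z (.cost : Letter n m Y)) u -
        lin (Letter.op G z (.cost : Letter n m Y)) u =
        dg (fun x => ((2 ^ k / m * Wn G z x : ℝ) : ℂ)) (nearP (hball δ z) u) := by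
      show lin (diagonal fun x : Cube n × Y => ((2 ^ k / m *
        (viol G x.1 - if x.1 ∈ hball δ z then 0 else (Wn G z x.1 : ℝ)) : ℝ) : ℂ)) u -
        lin (diagonal fun x : Cube n × Y => ((2 ^ k / m * pviol G z x.1 : ℝ) : ℂ)) u = _
      rw [lin_diag (fun x => ((2 ^ k / m *
        (viol G x - if x ∈ hball δ z then 0 else (Wn G z x : ℝ)) : ℝ) : ℂ)),
        lin_diag (fun x => ((2 ^ k / m * pviol G z x : ℝ) : ℂ))]
      ext x
      simp only [nearP, PiLp.sub_apply, dg_apply, pviol_eq]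
      by_cases hx : x.1 ∈ hball δ z
      · simp only [hx, if_true]
        push_cast
        ring
      · simp only [hx, if_false]
        push_cast
        ring
    rw [h1]
    refine norm_dg_le zero_le_two (fun x => ?_) _
    rw [Complex.norm_real, Real.norm_eq_abs, abs_of_nonneg (by positivity)]
    calc (2 : ℝ) ^ k / m * Wn G z x ≤ 2 ^ k / m * (2 * (m / 2 ^ k)) :=
          mul_le_mul_of_nonneg_left ((Wn_le_viol G z x).trans (Typ.viol_le hε hG x))
            (by positivity)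
      _ = 2 := by field_simp
  | cls h =>
    have h0 : lin (Letter.flt G δ z (.cls h)) = lin (Letter.op G z (.cls h)) := rfl
    rw [h0, sub_self, norm_zero]
    positivity

theorem goodOp_flt {G : Fin m → Clause n k} {ε δ ν β : ℝ} (hm : 0 < m) (hε : ε ≤ 1)
    (hG : Typ ε δ ν G) {Z : Type} [Fintype Z] (hβ : 0 ≤ β) (ζ : Z → Cube n)
    (hB : ∀ x, ((univ.filter fun z => x ∈ hball δ (ζ z)).card : ℝ) ≤ β ^ 2)
    {l : Letter n m Y} (hl : l.Ok k) : GoodOp β 8 fun z => lin (l.flt G δ (ζ z)) := by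
  cases l with
  | fix D =>
    exact (goodOp_fixed (β := β) (Z := Z) zero_le_one (lin D)
      (norm_lin_of_bdd zero_le_one hl)).mono hβ (by norm_num)
  | cost =>
    have h1 := goodOp_Xop (KQ := 0) hm hε hG hβ ζ hB (0 : Op n Y) (fun _ => 0) (fun _ => 0)
      (fun _ => le_rfl) (fun _ => zero_le_one)
      (by
        have h2 := goodOp_fixed (β := β) (Z := Z) (le_refl (0 : ℝ))
          (0 : Sp n Y →ₗ[ℂ] Sp n Y) (fun u => by simp)
        simpa using h2)
    have h3 := (goodOp_fixed (β := β) (Z := Z) zero_le_one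
      (LinearMap.id : Sp n Y →ₗ[ℂ] Sp n Y) (fun u => by simp)).add
      (h1.smul zero_le_one (fun _ => (-1 : ℂ)) (fun _ => by simp))
    have h4 : (1 : ℝ) + 1 * (0 + 7) = 8 := by norm_num
    rw [h4] at h3
    have h5 : (fun z => lin (Letter.flt G δ (ζ z) (.cost : Letter n m Y))) =
        fun z => LinearMap.id + (-1 : ℂ) • Xop G δ (ζ z) (0 : Op n Y) 0 0 := by
      funext z
      rw [flt_cost_eq G hm δ (ζ z), neg_one_smul, sub_eq_add_neg]
    rw [h5]
    exact h3
  | cls h =>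
    have h1 := goodOp_vterm (β := β) hm G (fun _ : Fin 1 => h) (fun _ j => hl.2 j)
      (fun x => Typ.viol_le hε hG x) ζ 0
    have h3 := (goodOp_fixed (β := β) (Z := Z) zero_le_one (lin (∑ j, h j))
      (norm_lin_of_bdd zero_le_one hl.1)).add
      (h1.smul zero_le_one (fun _ => (-1 : ℂ)) (fun _ => by simp))
    have h5 : (fun z => lin (Letter.flt G δ (ζ z) (.cls h))) =
        fun z => lin (∑ j, h j) + (-1 : ℂ) • vterm G (fun _ : Fin 1 => h) (ζ z) 0 := by
      funext z
      have h0 : lin (Letter.flt G δ (ζ z) (.cls h)) = lin (Letter.op G (ζ z) (.cls h)) := rfl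
      rw [h0, cls_eq, neg_one_smul, sub_eq_add_neg]
    rw [h5]
    refine h3.mono hβ ?_
    have : Real.sqrt 2 ≤ 2 := by
      rw [Real.sqrt_le_left (by norm_num)]
      norm_num
    linarith

end Pool.Agent.H73.AW
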