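import Pool.Agent.H73.AW.Num
import Pool.Agent.H73.AD.Typ
import Pool.Agent.H86.AW.ChainW

/-! The theorem. -/

namespace Pool.Agent.H73.AW

open Finset Matrix Pool.Agent.H73.QA Pool.Agent.H73.AD

/-- one typical formula -/
theorem one_formula {α κ Λ t e ε δ ν σ K1 : ℝ} {Q r : ℕ} (hα : 0 ≤ α) (hκ : 0 < κ)
    (hκ1 : κ ≤ 1)
    (hΛ : 0 ≤ Λ) (he : 0 < e) (hQ1 : 1 ≤ Q) (hσ0 : 0 < σ) (hK1 : 1 ≤ K1)
    (hK2 : K1 ≤ 2 ^ (e / 16 * Q))
    (hK3 : (κ / 4)⁻¹ * (8 ^ r * (4 * Λ + 12 * (σ / 8)) + 2 * σ) ≤ K1)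
    (hθ : (κ / 4)⁻¹ * (3 * σ) ≤ 2 ^ (-(Q : ℝ) / 2)) (hε0 : 0 ≤ ε) (hε1 : ε ≤ 1)
    (hν0 : 0 ≤ ν) (hεν : ε + ν < t)
    (hball : ∀ (n : ℕ) (x : Cube n),
      ((univ.filter fun z => x ∈ hball δ z).card : ℝ) ≤ (2 : ℝ) ^ (e / 16 * n))
    {Is : Finset ℤ} {ns : ℝ → ℤ}
    (hs1 : ∀ x, -(Λ * 2 ^ (r + 1)) ≤ x → x ≤ Λ * 2 ^ (r + 1) → ns x ∈ Is)
    (hs2 : ∀ x y, ns x = ns y → |x - y| ≤ σ)
    {k n m : ℕ} (hk1 : Λ * (r * 2 ^ (r + 1)) * (ν + ε + 2 / Real.sqrt (2 ^ k)) ≤ σ / 2)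
    (hk2 : Λ * (r * 2 ^ (r + 1)) * (ν + ε + 2 / Real.sqrt (2 ^ k)) ≤ κ / 4)
    (hn1 : (1 + e / 16) * ((n : ℝ) + 1) ≤ 2 ^ (e / 16 * n))
    (hn2 : 4 * 4 * 4 * 4 * ((r : ℝ) + 1) * (Is.card : ℝ) ^ 2 *
      (25 / κ ^ 2 * (8 ^ r) ^ 4 * 16 * K1 ^ 4) * ((100 * (Λ + 1) * 4 ^ (r + 2)) / κ) ^ 2 ≤
      2 ^ (e / 8 * n)) (hm : 0 < m)
    {G : Fin m → Clause n k} (hG : Typ ε δ ν G) {Y : Type} [Fintype Y] [DecidableEq Y] {p q : ℕ}
    (w : Fin p → List (Letter n m Y)) (T : Fin q → List (Letter n m Y)) (u : ℝ)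
    (hp : p ≤ e / 16 / (8 * Λ / σ + 2) * n) (hq : q ≤ (2 : ℝ) ^ (e / 16 / (8 * Λ / σ + 2) * n))
    (hw : ∀ i, (w i).length ≤ r ∧ ∀ l ∈ w i, l.Ok k)
    (hT : ∀ i, (T i).length ≤ r ∧ ∀ l ∈ T i, l.Ok k) :
    (Nat.card {z : Cube n // ¬ Hard α κ Λ t u G w T z} : ℝ) ≤ 2 ^ ((α + 2 * u + e) * n) := by
  classical
  obtain ⟨L, hL⟩ : ∃ L : ℕ, L = ⌈Λ * p / (σ / 8)⌉₊ := ⟨_, rfl⟩
  obtain ⟨cell, hc1, hc2⟩ := exists_cell (Λ := Λ) (ρ := σ / 8) (by linarith) p L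
    (by rw [hL]; exact Nat.le_ceil _)
  have hρ8 : 0 < 8 * Λ / σ + 2 := by positivity
  have he1 : 0 < e / 16 := by linarith
  -- nets
  have hN : Nets Λ (σ / 8) σ p r (cells p L) Is cell ns := by
    refine ⟨hc1, hc2, fun x hx => ?_, hs2⟩
    rw [abs_le] at hx
    exact hs1 x hx.1 hx.2
  -- constants
  obtain ⟨R, hR⟩ : ∃ R : ℝ, R = 2 ^ (α / 2 * n) := ⟨_, rfl⟩
  have hR1 : 1 ≤ R := by rw [hR]; exact Real.one_le_rpow one_le_two (by positivity)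
  have hR2 : R ^ 2 = 2 ^ (α * n) := by
    rw [hR, rpow_sq_n]; congr 2; ring
  obtain ⟨β, hβ⟩ : ∃ β : ℝ, β = 2 ^ (e / 32 * n) := ⟨_, rfl⟩
  have hβ1 : 1 ≤ β := by rw [hβ]; exact Real.one_le_rpow one_le_two (by positivity)
  have hβ2 : β ^ 2 = 2 ^ (e / 16 * n) := by
    rw [hβ, rpow_sq_n]; congr 2; ring
  have hC : Consts κ Λ ε δ ν (σ / 8) σ β R n k (n / Q + 1) r := by
    refine ⟨hκ, hκ1, hΛ, hε0, hε1, hν0, by linarith, hσ0.le, by linarith, by linarith,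
      by linarith, ?_, fun x => ?_⟩
    · exact (iter_le hQ1 (by positivity) hθ).trans hβ1
    · rw [hβ2]; exact hball n x
  obtain ⟨η, hη⟩ : ∃ η : ℝ, η = κ * (2 : ℝ) ^ (-u * n) / (100 * (Λ + 1) * 4 ^ (r + 2)) :=
    ⟨_, rfl⟩
  have hM0 : 0 < 100 * (Λ + 1) * (4 : ℝ) ^ (r + 2) := by positivity
  have hη0 : 0 < η := by
    rw [hη]
    have := Real.rpow_pos_of_pos two_pos (-u * n)
    positivity
  obtain ⟨S, hS⟩ : ∃ S : Finset (Cube n), S = univ.filter fun z =>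
      ¬ GoodW α κ Λ δ η r G w T z := ⟨_, rfl⟩
  have h1 := count_bad (α := α) hC hm hG w T (fun i => (hw i).2) (fun i => (hw i).1)
    (fun i => (hT i).2) (fun i => (hT i).1) hR2.ge hN hη0 S (fun z hz => by
    rw [hS, mem_filter] at hz
    exact hz.2)
  -- the numbers
  have hn1' : (n : ℝ) + 1 ≤ 2 ^ (e / 16 * n) := by
    refine le_trans ?_ hn1
    have : 0 ≤ e / 16 * ((n : ℝ) + 1) := by positivity
    linarith
  have hg := geo_le (e1 := e / 16) (ρ := σ / 8) n r hκ hΛ (by linarith) hσ0.le hK1 hK2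
    he1.le hK3 hn1'
  have hp2 : Λ * p / (σ / 8) + 2 * p ≤ e / 16 * n := by
    have h2 : Λ * p / (σ / 8) + 2 * p = (8 * Λ / σ + 2) * p := by field_simp
    rw [h2]
    calc (8 * Λ / σ + 2) * p ≤ (8 * Λ / σ + 2) * (e / 16 / (8 * Λ / σ + 2) * n) :=
          mul_le_mul_of_nonneg_left hp hρ8.le
      _ = _ := by field_simp
  have hNc : ((cells p L).card : ℝ) ≤ 2 * 2 ^ (e / 16 * n) := by
    have h2 : ((cells p L).card : ℝ) ≤ 2 ^ L * 3 ^ p := by exact_mod_cast cells_card p L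
    have h3 : (2 : ℝ) ^ L * 3 ^ p ≤ 2 ^ (Λ * p / (σ / 8) + 1) * 2 ^ (2 * (p : ℝ)) := by
      refine mul_le_mul ?_ ?_ (by positivity) (by positivity)
      · rw [← Real.rpow_natCast]
        refine Real.rpow_le_rpow_of_exponent_le one_le_two ?_
        rw [hL]
        exact (Nat.ceil_lt_add_one (by positivity)).le
      · rw [Real.rpow_mul two_pos.le, Real.rpow_natCast]
        exact pow_le_pow_left₀ (by norm_num) (by norm_num) p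
    refine h2.trans (h3.trans ?_)
    rw [← Real.rpow_add two_pos]
    calc (2 : ℝ) ^ (Λ * p / (σ / 8) + 1 + 2 * p) ≤ 2 ^ (1 + e / 16 * n) :=
          Real.rpow_le_rpow_of_exponent_le one_le_two (by linarith)
      _ = _ := by rw [Real.rpow_add two_pos, Real.rpow_one]
  have hw1 : (1 : ℝ) ≤ 2 ^ (e / 16 * n) := Real.one_le_rpow one_le_two (by positivity)
  have hq1 : (q : ℝ) ≤ 2 ^ (e / 16 * n) := by
    refine hq.trans (Real.rpow_le_rpow_of_exponent_le one_le_two ?_)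
    refine mul_le_mul_of_nonneg_right ?_ (Nat.cast_nonneg _)
    rw [div_le_iff₀ hρ8]
    have : 0 ≤ 8 * Λ / σ := by positivity
    nlinarith
  have hp1 : (p : ℝ) ≤ 2 ^ (e / 16 * n) := by
    have h2 : (p : ℝ) ≤ e / 16 * n := by
      have h3 : 0 ≤ Λ * p / (σ / 8) := by positivity
      have h4 : (0 : ℝ) ≤ p := Nat.cast_nonneg _
      linarith
    have h3 : e / 16 * (n : ℝ) ≤ (1 + e / 16) * ((n : ℝ) + 1) := by
      have h4 : (0 : ℝ) ≤ n := Nat.cast_nonneg _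
      nlinarith
    linarith
  have hint : ((cells p L).card : ℝ) * (Is.card : ℝ) ≤
      (((cells p L).card : ℝ) * (Is.card : ℝ)) ^ 2 := by
    have h2 : ∀ x : ℕ, x ≤ x ^ 2 := fun x => Nat.le_self_pow two_ne_zero x
    exact_mod_cast h2 ((cells p L).card * Is.card)
  have hgeo0 : 0 ≤ geo κ Λ (σ / 8) σ r (n / Q + 1) := by
    unfold geo
    positivity
  have hX : (Fintype.card (Ix p q r) : ℝ) ≤ 4 * ((r : ℝ) + 1) * 2 ^ (e / 16 * n) := by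
    rw [card_Ix]
    push_cast
    have h2 : (p : ℝ) + (p + q) + 1 ≤ 4 * 2 ^ (e / 16 * n) := by linarith
    calc ((p : ℝ) + (p + q) + 1) * (r + 1) ≤ (4 * 2 ^ (e / 16 * n)) * (r + 1) :=
          mul_le_mul_of_nonneg_right h2 (by positivity)
      _ = _ := by ring
  have h2 := final (α := α) (u := u) (e := e) (κ := κ) (K1 := K1) (β := β) (R := R) (η := η)
    (g := geo κ Λ (σ / 8) σ r (n / Q + 1)) (Nc := (cells p L).card)
    (Nb := (Is.card : ℝ)) (q := q) (n := n) (a8 := 8 ^ r) (M := 100 * (Λ + 1) * 4 ^ (r + 2))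
    (r1 := (r : ℝ) + 1) hκ hκ1 hK1 hβ2.le hR1 (one_le_pow₀ (by norm_num)) hR2 hM0 hη hgeo0 hg
    (Nat.cast_nonneg _) hNc (by positivity) hint (Nat.cast_nonneg _) (by linarith)
    (Nat.cast_nonneg _) (by positivity) hX hn2 he.le
  have h3 : (Nat.card {z : Cube n // ¬ Hard α κ Λ t u G w T z} : ℝ) ≤ S.card := by
    have h4 : Nat.card {z : Cube n // ¬ Hard α κ Λ t u G w T z} ≤ S.card := by
      rw [Nat.card_eq_fintype_card, Fintype.card_subtype]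
      refine card_le_card fun z hz => ?_
      rw [mem_filter] at hz
      rw [hS, mem_filter]
      refine ⟨mem_univ _, fun hgood => hz.2 ?_⟩
      rw [hη] at hgood
      exact hard_of_goodW hκ hκ1 hΛ hε0 hε1 hν0 hεν hk2 hm hG w T (fun i => (hw i).2)
        (fun i => (hw i).1) (fun i => (hT i).2) (fun i => (hT i).1) z hgood
    exact_mod_cast h4
  exact h3.trans (h1.trans h2)

theorem main (α κ Λ t e : ℝ) (r : ℕ) (hα : 0 ≤ α) (hκ : 0 < κ) (hκ1 : κ ≤ 1) (hΛ : 0 ≤ Λ)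
    (ht : 0 < t) (he : 0 < e) :
    ∃ c C : ℝ, 0 < c ∧ 0 < C ∧ ∃ k₀ n₀ : ℕ, ∀ k ≥ k₀, ∀ n ≥ n₀, ∀ m : ℕ,
      C * 2 ^ k * n ≤ m →
      (Nat.card {G : Fin m → Clause n k // ¬ ∀ (Y : Type) (_ : Fintype Y) (_ : DecidableEq Y)
        (p q : ℕ) (w : Fin p → List (Letter n m Y)) (T : Fin q → List (Letter n m Y)) (u : ℝ),
        p ≤ c * n → q ≤ (2 : ℝ) ^ (c * n) →
        (∀ i, (w i).length ≤ r ∧ ∀ l ∈ w i, l.Ok k) →
        (∀ i, (T i).length ≤ r ∧ ∀ l ∈ T i, l.Ok k) →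
        (Nat.card {z : Cube n // ¬ Hard α κ Λ t u G w T z} : ℝ) ≤ 2 ^ ((α + 2 * u + e) * n)} : ℝ)
      ≤ Nat.card (Fin m → Clause n k) / 2 ^ n := by
  obtain ⟨Q, σ, K1, hQ1, hσ0, hσ1, hK1, hK2, hK3, hθ⟩ :=
    params (e1 := e / 16) (κ := κ) (Λ := Λ) r (by linarith) hκ hΛ
  obtain ⟨δ, hδ0, hδ1, hball⟩ := ball_in (β := e / 16) (by linarith)
  have hB0 : 0 ≤ Λ * 2 ^ (r + 1) := by positivity
  obtain ⟨Is, ns, -, hs1, hs2⟩ := exists_net (ζ := σ) (A := -(Λ * 2 ^ (r + 1)))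
    (B := Λ * 2 ^ (r + 1)) hσ0 (by linarith)
  obtain ⟨M0, hM0⟩ : ∃ M0 : ℝ, M0 = Λ * (r * 2 ^ (r + 1)) := ⟨_, rfl⟩
  have hM00 : 0 ≤ M0 := by rw [hM0]; positivity
  obtain ⟨τ, hτ⟩ : ∃ τ : ℝ, τ = min (σ / 8) (κ / 12) / (M0 + 1) := ⟨_, rfl⟩
  have hτ0 : 0 < τ := by
    rw [hτ]
    exact div_pos (lt_min (by linarith) (by linarith)) (by linarith)
  have hτM : M0 * (3 * τ) ≤ 3 * min (σ / 8) (κ / 12) := by
    have h1 : τ * (M0 + 1) = min (σ / 8) (κ / 12) := by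
      rw [hτ]
      field_simp
    nlinarith
  have hτσ : M0 * (3 * τ) ≤ σ / 2 := by
    have := min_le_left (σ / 8) (κ / 12)
    linarith
  have hτκ : M0 * (3 * τ) ≤ κ / 4 := by
    have := min_le_right (σ / 8) (κ / 12)
    linarith
  obtain ⟨ε, hε⟩ : ∃ ε : ℝ, ε = min τ (min 1 (t / 4)) := ⟨_, rfl⟩
  have hε0 : 0 < ε := by
    rw [hε]; exact lt_min hτ0 (lt_min one_pos (by linarith))
  have hε1 : ε ≤ τ := by rw [hε]; exact min_le_left _ _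
  have hε2 : ε ≤ 1 := by rw [hε]; exact (min_le_right _ _).trans (min_le_left _ _)
  have hε3 : ε ≤ t / 4 := by rw [hε]; exact (min_le_right _ _).trans (min_le_right _ _)
  obtain ⟨C, hC0, k1, hC⟩ := typ_count (ε := ε) (δ := δ) (ν := ε) hε0 (by linarith) hδ0
    (by linarith) hε0 (by linarith)
  obtain ⟨k2, hk2⟩ := exists_nat_ge ((2 / τ) ^ 2)
  obtain ⟨n1, hn1⟩ := lin_le_exp (c := e / 16) (by linarith) (A := 1 + e / 16) (by linarith)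
  obtain ⟨n2, hn2⟩ := lin_le_exp (c := e / 8) (by linarith)
    (A := 4 * 4 * 4 * 4 * ((r : ℝ) + 1) * (Is.card : ℝ) ^ 2 *
      (25 / κ ^ 2 * (8 ^ r) ^ 4 * 16 * K1 ^ 4) * ((100 * (Λ + 1) * 4 ^ (r + 2)) / κ) ^ 2)
    (by positivity)
  refine ⟨e / 16 / (8 * Λ / σ + 2), C, by positivity, hC0, max k1 k2, max 1 (max n1 n2),
    fun k hk n hn m hm => ?_⟩
  have hn0 : 1 ≤ n := (le_max_left _ _).trans hn
  have hn0' : (1 : ℝ) ≤ n := by exact_mod_cast hn0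
  have hm0 : 0 < m := by
    have h1 : 0 < C * 2 ^ k * n := by positivity
    have h2 : (0 : ℝ) < m := h1.trans_le hm
    exact_mod_cast h2
  have h1 := hC k ((le_max_left _ _).trans hk) n hn0 m hm
  refine le_trans ?_ h1
  -- k is large
  have hkτ : 2 / Real.sqrt (2 ^ k) ≤ τ := by
    have h3 : (2 / τ) ^ 2 ≤ 2 ^ k := by
      refine hk2.trans ?_
      have h4 : k2 ≤ 2 ^ k :=
        ((le_max_right _ _).trans hk).trans (Nat.lt_two_pow_self).le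
      exact_mod_cast h4
    have h4 : 2 / τ ≤ Real.sqrt (2 ^ k) := Real.le_sqrt_of_sq_le h3
    have h5 : 0 < Real.sqrt (2 ^ k) := Real.sqrt_pos.2 (by positivity)
    rw [div_le_iff₀ h5]
    rw [div_le_iff₀ hτ0] at h4
    linarith
  have hsum : Λ * (r * 2 ^ (r + 1)) * (ε + ε + 2 / Real.sqrt (2 ^ k)) ≤ M0 * (3 * τ) := by
    rw [← hM0]
    exact mul_le_mul_of_nonneg_left (by linarith) hM00
  have h2 : Nat.card {G : Fin m → Clause n k // ¬ ∀ (Y : Type) (_ : Fintype Y) (_ : DecidableEq Y)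
        (p q : ℕ) (w : Fin p → List (Letter n m Y)) (T : Fin q → List (Letter n m Y)) (u : ℝ),
        p ≤ e / 16 / (8 * Λ / σ + 2) * n → q ≤ (2 : ℝ) ^ (e / 16 / (8 * Λ / σ + 2) * n) →
        (∀ i, (w i).length ≤ r ∧ ∀ l ∈ w i, l.Ok k) →
        (∀ i, (T i).length ≤ r ∧ ∀ l ∈ T i, l.Ok k) →
        (Nat.card {z : Cube n // ¬ Hard α κ Λ t u G w T z} : ℝ) ≤ 2 ^ ((α + 2 * u + e) * n)} ≤
      Nat.card {G : Fin m → Clause n k // ¬ Typ ε δ ε G} := by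
    refine Nat.card_le_card_of_injective (fun G => ⟨G.1, fun hG => G.2 ?_⟩) fun G G' h =>
      Subtype.ext (congrArg (fun x => x.1) h)
    intro Y _ _ p q w T u hp hq hw hT
    refine one_formula (ε := ε) (δ := δ) (ν := ε) (σ := σ) (K1 := K1) (Q := Q) hα hκ hκ1 hΛ he
      hQ1 hσ0 hK1 hK2 hK3 hθ hε0.le hε2 hε0.le (by linarith) hball hs1 hs2
      (hsum.trans hτσ) (hsum.trans hτκ) ?_ ?_ hm0 hG w T u hp hq hw hT
    · exact hn1 n (((le_max_left _ _).trans (le_max_right _ _)).trans hn)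
    · have h3 := hn2 n (((le_max_right _ _).trans (le_max_right _ _)).trans hn)
      refine le_trans ?_ h3
      have h4 : (0 : ℝ) ≤ 4 * 4 * 4 * 4 * ((r : ℝ) + 1) * (Is.card : ℝ) ^ 2 *
        (25 / κ ^ 2 * (8 ^ r) ^ 4 * 16 * K1 ^ 4) * ((100 * (Λ + 1) * 4 ^ (r + 2)) / κ) ^ 2 := by
        positivity
      nlinarith
  exact_mod_cast h2

end Pool.Agent.H73.AW
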