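import Pool.Agent.H73.AW.BadC
import Pool.Agent.H73.AD.Num

/-! Choice of the parameters. -/

namespace Pool.Agent.H73.AW

open Finset Matrix Pool.Agent.H73.QA Pool.Agent.H73.AD

/-- the constants of the argument -/
theorem params {e1 κ Λ : ℝ} (r : ℕ) (he : 0 < e1) (hκ : 0 < κ) (hΛ : 0 ≤ Λ) :
    ∃ (Q : ℕ) (σ K1 : ℝ), 1 ≤ Q ∧ 0 < σ ∧ σ ≤ 1 ∧ 1 ≤ K1 ∧ K1 ≤ 2 ^ (e1 * Q) ∧
      (κ / 4)⁻¹ * (8 ^ r * (4 * Λ + 12 * (σ / 8)) + 2 * σ) ≤ K1 ∧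
      (κ / 4)⁻¹ * (3 * σ) ≤ 2 ^ (-(Q : ℝ) / 2) := by
  obtain ⟨K1, hK1⟩ : ∃ K1 : ℝ, K1 = (κ / 4)⁻¹ * (8 ^ r * (4 * Λ + 2) + 2) + 1 := ⟨_, rfl⟩
  have hκ8 : 0 < (κ / 4)⁻¹ := by positivity
  have hK : 1 ≤ K1 := by
    rw [hK1]
    have : 0 ≤ (κ / 4)⁻¹ * (8 ^ r * (4 * Λ + 2) + 2) := by positivity
    linarith
  obtain ⟨Q, hQ⟩ := exists_nat_ge (max 1 (Real.logb 2 K1 / e1))
  have hQ1 : (1 : ℝ) ≤ Q := (le_max_left _ _).trans hQ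
  have hQ2 : Real.logb 2 K1 / e1 ≤ Q := (le_max_right _ _).trans hQ
  have hpow : 0 < (2 : ℝ) ^ (-(Q : ℝ) / 2) := Real.rpow_pos_of_pos two_pos _
  obtain ⟨σ, hσ⟩ : ∃ σ : ℝ, σ = min 1 (κ / 12 * 2 ^ (-(Q : ℝ) / 2)) := ⟨_, rfl⟩
  have hσ0 : 0 < σ := by rw [hσ]; exact lt_min one_pos (by positivity)
  have hσ1 : σ ≤ 1 := by rw [hσ]; exact min_le_left _ _
  have hσ2 : σ ≤ κ / 12 * 2 ^ (-(Q : ℝ) / 2) := by rw [hσ]; exact min_le_right _ _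
  refine ⟨Q, σ, K1, by exact_mod_cast hQ1, hσ0, hσ1, hK, ?_, ?_, ?_⟩
  · rw [div_le_iff₀ he] at hQ2
    have h1 : K1 = 2 ^ Real.logb 2 K1 :=
      (Real.rpow_logb two_pos (by norm_num) (by linarith)).symm
    calc K1 = 2 ^ Real.logb 2 K1 := h1
      _ ≤ 2 ^ (e1 * Q) := Real.rpow_le_rpow_of_exponent_le one_le_two (by linarith)
  · rw [hK1]
    have h8 : (0 : ℝ) < 8 ^ r := by positivity
    have h9 : (8 : ℝ) ^ r * (4 * Λ + 12 * (σ / 8)) ≤ 8 ^ r * (4 * Λ + 2) :=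
      mul_le_mul_of_nonneg_left (by linarith) h8.le
    have : (κ / 4)⁻¹ * (8 ^ r * (4 * Λ + 12 * (σ / 8)) + 2 * σ) ≤
        (κ / 4)⁻¹ * (8 ^ r * (4 * Λ + 2) + 2) :=
      mul_le_mul_of_nonneg_left (by linarith) hκ8.le
    linarith
  · calc (κ / 4)⁻¹ * (3 * σ) ≤ (κ / 4)⁻¹ * (3 * (κ / 12 * 2 ^ (-(Q : ℝ) / 2))) := by gcongr
      _ = 2 ^ (-(Q : ℝ) / 2) := by field_simp; ring

theorem geo_le {e1 κ Λ ρ σ K1 : ℝ} {Q : ℕ} (n r : ℕ) (hκ : 0 < κ) (hΛ : 0 ≤ Λ)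
    (hρ0 : 0 ≤ ρ) (hσ : 0 ≤ σ) (hK1 : 1 ≤ K1) (hQ : K1 ≤ 2 ^ (e1 * Q))
    (he : 0 ≤ e1)
    (hK : (κ / 4)⁻¹ * (8 ^ r * (4 * Λ + 12 * ρ) + 2 * σ) ≤ K1)
    (hn : (n : ℝ) + 1 ≤ 2 ^ (e1 * n)) :
    geo κ Λ ρ σ r (n / Q + 1) + 1 ≤ 2 * K1 * 2 ^ ((2 * e1) * n) := by
  have h0 : 0 ≤ (κ / 4)⁻¹ * (8 ^ r * (4 * Λ + 12 * ρ) + 2 * σ) := by
    positivity
  have h2 : geo κ Λ ρ σ r (n / Q + 1) ≤ ((n / Q + 1 : ℕ) : ℝ) * K1 ^ (n / Q + 1) := by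
    unfold geo
    calc _ ≤ ∑ _j ∈ range (n / Q + 1), K1 ^ (n / Q + 1) := by
          refine sum_le_sum fun j hj => ?_
          rw [mem_range] at hj
          exact (pow_le_pow_left₀ h0 hK j).trans (pow_le_pow_right₀ hK1 hj.le)
      _ = _ := by rw [sum_const, card_range, nsmul_eq_mul]
  have h3 : K1 ^ (n / Q + 1) ≤ K1 * 2 ^ (e1 * n) := by
    rw [pow_succ, mul_comm]
    refine mul_le_mul_of_nonneg_left ?_ (by linarith)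
    calc K1 ^ (n / Q) ≤ ((2 : ℝ) ^ (e1 * Q)) ^ (n / Q) := pow_le_pow_left₀ (by linarith) hQ _
      _ = 2 ^ (e1 * Q * ((n / Q : ℕ) : ℝ)) := by
          rw [← Real.rpow_natCast, ← Real.rpow_mul two_pos.le]
      _ ≤ _ := by
          refine Real.rpow_le_rpow_of_exponent_le one_le_two ?_
          have h4 : Q * (n / Q) ≤ n := Nat.mul_div_le n Q
          have h5 : (Q : ℝ) * ((n / Q : ℕ) : ℝ) ≤ n := by exact_mod_cast h4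
          rw [mul_assoc]
          exact mul_le_mul_of_nonneg_left h5 he
  have h4 : ((n / Q + 1 : ℕ) : ℝ) ≤ 2 ^ (e1 * n) := by
    refine le_trans ?_ hn
    have : n / Q ≤ n := Nat.div_le_self n Q
    have h5 : ((n / Q : ℕ) : ℝ) ≤ n := by exact_mod_cast this
    push_cast
    linarith
  have h5 : geo κ Λ ρ σ r (n / Q + 1) ≤ K1 * 2 ^ ((2 * e1) * n) := by
    calc _ ≤ _ := h2
      _ ≤ 2 ^ (e1 * n) * (K1 * 2 ^ (e1 * n)) :=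
          mul_le_mul h4 h3 (by positivity) (by positivity)
      _ = K1 * (2 ^ (e1 * n) * 2 ^ (e1 * n)) := by ring
      _ = _ := by rw [rpow_add_n]; congr 2; ring
  have h6 : (1 : ℝ) ≤ K1 * 2 ^ ((2 * e1) * n) := by
    have h7 : (1 : ℝ) ≤ 2 ^ ((2 * e1) * n) :=
      Real.one_le_rpow one_le_two (by positivity)
    nlinarith
  linarith

/-- the final inequality -/
theorem final {α u e κ K1 β R η g Nc Nb X q a8 M r1 : ℝ} {n : ℕ} (hκ : 0 < κ) (hκ1 : κ ≤ 1)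
    (hK1 : 1 ≤ K1) (hβ : β ^ 2 ≤ 2 ^ (e / 16 * n)) (hR1 : 1 ≤ R) (ha8 : 1 ≤ a8)
    (hR : R ^ 2 = 2 ^ (α * n)) (hM : 0 < M) (hη : η = κ * (2 : ℝ) ^ (-u * n) / M) (hg0 : 0 ≤ g)
    (hg : g + 1 ≤ 2 * K1 * 2 ^ ((2 * (e / 16)) * n)) (hNc0 : 0 ≤ Nc)
    (hNc : Nc ≤ 2 * 2 ^ (e / 16 * n)) (hNb0 : 0 ≤ Nb)
    (hint : Nc * Nb ≤ (Nc * Nb) ^ 2) (hq0 : 0 ≤ q) (hq : q + 1 ≤ 2 * 2 ^ (e / 16 * n))
    (hX0 : 0 ≤ X) (hr1 : 0 ≤ r1) (hX : X ≤ 4 * r1 * 2 ^ (e / 16 * n))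
    (hn : 4 * 4 * 4 * 4 * r1 * Nb ^ 2 * (25 / κ ^ 2 * a8 ^ 4 * 16 * K1 ^ 4) * (M / κ) ^ 2 ≤
      2 ^ (e / 8 * n)) (he : 0 ≤ e) :
    (Nc * Nb * X) * (4 * (β ^ 2 * (a8 * (R * g + 1)) ^ 2) / η ^ 2) +
      (Nc * Nb * X) * (4 * (β ^ 2 * (a8 * (R * g + 1)) ^ 2) / η ^ 2) +
      ((Nc * Nb) * ((q + 1) * (Nc * Nb)) * X) *
        (4 * (β ^ 2 * (a8 * ((R + (κ / 4)⁻¹ * (a8 * (R * g + 1))) * g + 1)) ^ 2) / η ^ 2) ≤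
      2 ^ ((α + 2 * u + e) * n) := by
  obtain ⟨w, hw⟩ : ∃ w : ℝ, w = 2 ^ (e / 16 * n) := ⟨_, rfl⟩
  obtain ⟨τ, hτ⟩ : ∃ τ : ℝ, τ = 2 ^ (-u * n) := ⟨_, rfl⟩
  have hw1 : 1 ≤ w := by rw [hw]; exact Real.one_le_rpow one_le_two (by positivity)
  have hτ0 : 0 < τ := by rw [hτ]; exact Real.rpow_pos_of_pos two_pos _
  have hw2 : (2 : ℝ) ^ ((2 * (e / 16)) * n) = w ^ 2 := by rw [hw, rpow_sq_n]
  have hw4 : (2 : ℝ) ^ (e / 8 * n) = w ^ 2 := by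
    rw [hw, ← Real.rpow_natCast, ← Real.rpow_mul two_pos.le]
    congr 1; push_cast; ring
  have hw16 : (2 : ℝ) ^ (e * n) = w ^ 16 := by
    rw [hw, ← Real.rpow_natCast, ← Real.rpow_mul two_pos.le]
    congr 1; push_cast; ring
  have hgoal : (2 : ℝ) ^ ((α + 2 * u + e) * n) = R ^ 2 * (1 / τ ^ 2) * w ^ 16 := by
    have h1 : (2 : ℝ) ^ (2 * u * n) * τ ^ 2 = 1 := by
      rw [hτ, rpow_sq_n, rpow_add_n]
      have : (2 * u + 2 * -u) * n = 0 := by ring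
      rw [this, Real.rpow_zero]
    have h2 : 1 / τ ^ 2 = 2 ^ (2 * u * n) := by
      rw [div_eq_iff (by positivity)]
      exact h1.symm
    rw [h2, hR, ← hw16, rpow_add_n, rpow_add_n]
  rw [hgoal]
  rw [← hw] at hβ hNc hq hX
  rw [hw2] at hg
  rw [hw4] at hn
  rw [← hτ] at hη
  -- the costs
  obtain ⟨γ, hγ⟩ : ∃ γ, γ = g + 1 := ⟨_, rfl⟩
  have hγ1 : 1 ≤ γ := by rw [hγ]; linarith
  rw [← hγ] at hg
  obtain ⟨i, hi⟩ : ∃ i, i = 1 / κ := ⟨_, rfl⟩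
  have hκi : 1 ≤ i := by rw [hi, le_div_iff₀ hκ]; linarith
  have h8 : (κ / 4)⁻¹ = 4 * i := by rw [hi, inv_div]; ring
  rw [h8]
  obtain ⟨s, hs⟩ : ∃ s, s = 5 * i * a8 * (R * γ) := ⟨_, rfl⟩
  obtain ⟨c, hc⟩ : ∃ c, c = a8 * (s * γ) := ⟨_, rfl⟩
  have hg' : g = γ - 1 := by rw [hγ]; ring
  have hRγ : 1 ≤ R * γ := by nlinarith
  have hia : 1 ≤ i * a8 := by nlinarith
  have h1 : R * g + 1 ≤ R * γ := by rw [hg']; nlinarith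
  have hs1 : R * γ ≤ s := by
    rw [hs]
    nlinarith
  have hs0 : 1 ≤ s := hRγ.trans hs1
  have h2 : R + 4 * i * (a8 * (R * g + 1)) ≤ s := by
    have h4 : 4 * i * (a8 * (R * g + 1)) ≤ 4 * i * (a8 * (R * γ)) :=
      mul_le_mul_of_nonneg_left (mul_le_mul_of_nonneg_left h1 (by positivity)) (by positivity)
    have h5 : R ≤ i * a8 * (R * γ) := by
      have h6 : 1 ≤ i * a8 * γ := by nlinarith
      calc R = R * 1 := by ring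
        _ ≤ R * (i * a8 * γ) := mul_le_mul_of_nonneg_left h6 (by linarith)
        _ = _ := by ring
    rw [hs]
    linarith
  have hsγ : (R + 4 * i * (a8 * (R * g + 1))) * g + 1 ≤ s * γ := by
    have h4 : (R + 4 * i * (a8 * (R * g + 1))) * g ≤ s * g := mul_le_mul_of_nonneg_right h2 hg0
    rw [hγ]
    linarith
  have h3 : R * g + 1 ≤ s * γ := by
    calc R * g + 1 ≤ s := h1.trans hs1
      _ = s * 1 := by ring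
      _ ≤ s * γ := mul_le_mul_of_nonneg_left hγ1 (by linarith)
  have hη2 : 0 < η ^ 2 := by rw [hη]; positivity
  obtain ⟨B, hB⟩ : ∃ B, B = 4 * (β ^ 2 * c ^ 2) / η ^ 2 := ⟨_, rfl⟩
  have hB0 : 0 ≤ B := by rw [hB]; positivity
  have h5 : 4 * (β ^ 2 * (a8 * (R * g + 1)) ^ 2) / η ^ 2 ≤ B := by
    rw [hB, hc]
    gcongr
  have h6 : 4 * (β ^ 2 * (a8 * ((R + 4 * i * (a8 * (R * g + 1))) * g + 1)) ^ 2) / η ^ 2 ≤ B := by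
    rw [hB, hc]
    have : (a8 * ((R + 4 * i * (a8 * (R * g + 1))) * g + 1)) ^ 2 ≤ (a8 * (s * γ)) ^ 2 :=
      pow_le_pow_left₀ (by positivity) (mul_le_mul_of_nonneg_left hsγ (by positivity)) 2
    gcongr
  have hY0 : 0 ≤ Nc * Nb := by positivity
  have hY : (Nc * Nb) ^ 2 ≤ 4 * w ^ 2 * Nb ^ 2 := by
    have : Nc ^ 2 ≤ (2 * w) ^ 2 := pow_le_pow_left₀ hNc0 hNc 2
    calc (Nc * Nb) ^ 2 = Nc ^ 2 * Nb ^ 2 := by ring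
      _ ≤ (2 * w) ^ 2 * Nb ^ 2 := mul_le_mul_of_nonneg_right this (sq_nonneg _)
      _ = _ := by ring
  have hq3 : q + 3 ≤ 4 * w := by linarith
  have h7 : (Nc * Nb * X) * (4 * (β ^ 2 * (a8 * (R * g + 1)) ^ 2) / η ^ 2) +
      (Nc * Nb * X) * (4 * (β ^ 2 * (a8 * (R * g + 1)) ^ 2) / η ^ 2) +
      ((Nc * Nb) * ((q + 1) * (Nc * Nb)) * X) *
        (4 * (β ^ 2 * (a8 * ((R + 4 * i * (a8 * (R * g + 1))) * g + 1)) ^ 2) / η ^ 2) ≤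
      (q + 3) * (Nc * Nb) ^ 2 * X * B := by
    have h9 : (Nc * Nb * X) * (4 * (β ^ 2 * (a8 * (R * g + 1)) ^ 2) / η ^ 2) ≤
        (Nc * Nb) ^ 2 * X * B :=
      mul_le_mul (mul_le_mul_of_nonneg_right hint hX0) h5 (by positivity) (by positivity)
    have h10 : ((Nc * Nb) * ((q + 1) * (Nc * Nb)) * X) *
        (4 * (β ^ 2 * (a8 * ((R + 4 * i * (a8 * (R * g + 1))) * g + 1)) ^ 2) / η ^ 2) ≤
        ((Nc * Nb) * ((q + 1) * (Nc * Nb)) * X) * B :=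
      mul_le_mul_of_nonneg_left h6 (by positivity)
    calc _ ≤ (Nc * Nb) ^ 2 * X * B + (Nc * Nb) ^ 2 * X * B +
          ((Nc * Nb) * ((q + 1) * (Nc * Nb)) * X) * B := add_le_add (add_le_add h9 h9) h10
      _ = _ := by ring
  refine h7.trans ?_
  have hc2 : c ^ 2 ≤ R ^ 2 * (25 / κ ^ 2 * a8 ^ 4 * 16 * K1 ^ 4) * w ^ 8 := by
    have h8 : γ ^ 4 ≤ (2 * K1 * w ^ 2) ^ 4 := pow_le_pow_left₀ (by linarith) hg 4
    have h9' : c ^ 2 = R ^ 2 * (25 * i ^ 2 * a8 ^ 4) * γ ^ 4 := by rw [hc, hs]; ring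
    rw [h9']
    calc R ^ 2 * (25 * i ^ 2 * a8 ^ 4) * γ ^ 4 ≤
          R ^ 2 * (25 * i ^ 2 * a8 ^ 4) * (2 * K1 * w ^ 2) ^ 4 :=
          mul_le_mul_of_nonneg_left h8 (by positivity)
      _ = _ := by rw [hi]; ring
  have hηi : 1 / η ^ 2 = (M / κ) ^ 2 * (1 / τ ^ 2) := by
    rw [hη]
    field_simp
  have hB2 : B ≤ 4 * (w * (R ^ 2 * (25 / κ ^ 2 * a8 ^ 4 * 16 * K1 ^ 4) * w ^ 8)) *
      ((M / κ) ^ 2 * (1 / τ ^ 2)) := by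
    rw [hB, ← hηi, div_eq_mul_one_div]
    refine mul_le_mul_of_nonneg_right ?_ (by positivity)
    have : β ^ 2 * c ^ 2 ≤ w * (R ^ 2 * (25 / κ ^ 2 * a8 ^ 4 * 16 * K1 ^ 4) * w ^ 8) :=
      mul_le_mul hβ hc2 (sq_nonneg _) (by positivity)
    linarith
  have hw0 : 0 ≤ w := by linarith
  calc (q + 3) * (Nc * Nb) ^ 2 * X * B ≤ (4 * w) * (4 * w ^ 2 * Nb ^ 2) * (4 * r1 * w) *
        (4 * (w * (R ^ 2 * (25 / κ ^ 2 * a8 ^ 4 * 16 * K1 ^ 4) * w ^ 8)) *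
          ((M / κ) ^ 2 * (1 / τ ^ 2))) := by
        refine mul_le_mul (mul_le_mul (mul_le_mul hq3 hY (sq_nonneg _) (by positivity)) hX hX0
          (by positivity)) hB2 hB0 (by positivity)
    _ = (4 * 4 * 4 * 4 * r1 * Nb ^ 2 * (25 / κ ^ 2 * a8 ^ 4 * 16 * K1 ^ 4) * (M / κ) ^ 2) *
        (R ^ 2 * (1 / τ ^ 2) * w ^ 13) := by ring
    _ ≤ w ^ 2 * (R ^ 2 * (1 / τ ^ 2) * w ^ 13) :=
        mul_le_mul_of_nonneg_right hn (by positivity)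
    _ = (R ^ 2 * (1 / τ ^ 2) * w ^ 15) := by ring
    _ ≤ R ^ 2 * (1 / τ ^ 2) * w ^ 16 :=
        mul_le_mul_of_nonneg_left (pow_le_pow_right₀ hw1 (by norm_num)) (by positivity)

end Pool.Agent.H73.AW
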