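import Mathlib
import Pool.Agent.H73.AD.Stmt

/-!
Adiabatic algorithms for planted k-CNF formulas whose Hamiltonians are polynomials in the cost
function: the definitions used by the statement.

`Cube n`, `Clause n k`, `Violates` are the ones of `Pool/Agent/H73/QA/Stmt.lean`; `Op`, `nsq`,
`Bdd`, `pviol`, `Iso` are the ones of `Pool/Agent/H73/AD/Stmt.lean`.
-/

namespace Pool.Agent.H73.AW

open Finset Matrix Pool.Agent.H73.QA Pool.Agent.H73.AD

/-- The factors of a word: a fixed operator, the cost, or a sum of clause terms. -/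
inductive Letter (n m : ℕ) (Y : Type) : Type
  | fix (D : Op n Y)
  | cost
  | cls (h : Fin m → Op n Y)

variable {n k m : ℕ} {Y : Type} [Fintype Y] [DecidableEq Y]

/-- Normalisation: fixed operators are contractions; the sum of all clause terms is a contraction
and each clause term has norm at most `2 ^ (k / 2) / m`. -/
def Letter.Ok (k : ℕ) : Letter n m Y → Prop
  | .fix D => Bdd D 1
  | .cost => True
  | .cls h => Bdd (∑ j, h j) 1 ∧ ∀ j, Bdd (h j) (Real.sqrt (2 ^ k) / m)

/-- The operator of a letter for the formula `F` that consists of the clauses of `G` satisfied by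
`z`: the cost is `2 ^ k / m` times the number of violated clauses of `F`, the clause terms are
summed over the clauses of `F`. -/
noncomputable def Letter.op (G : Fin m → Clause n k) (z : Cube n) : Letter n m Y → Op n Y
  | .fix D => D
  | .cost => diagonal fun x => ((2 ^ k / m * pviol G z x.1 : ℝ) : ℂ)
  | .cls h => ∑ j ∈ univ.filter (fun j => ¬ Violates z (G j)), h j

/-- The averaged operator of a letter: the cost is replaced by `1`, and the clause terms are summed
over all clauses of `G`. -/
noncomputable def Letter.av : Letter n m Y → Op n Y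
  | .fix D => D
  | .cost => 1
  | .cls h => ∑ j, h j

/-- The Hamiltonian `∑ i, a i (W i + (W i)ᴴ)`, where `W i` is the product of the letters of the word
`w i`, evaluated by `f`. -/
noncomputable def Ham {p : ℕ} (f : Letter n m Y → Op n Y) (w : Fin p → List (Letter n m Y))
    (a : Fin p → ℝ) : Op n Y :=
  ∑ i, (a i : ℂ) • (((w i).map f).prod + ((w i).map f).prodᴴ)

/-- At most `2 ^ (α n)` eigenvalues of the Hermitian matrix `A` are smaller than `E + κ`. -/
def Few (α κ E : ℝ) (A : Op n Y) : Prop :=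
  ∃ hA : A.IsHermitian,
    ((univ.filter fun i => hA.eigenvalues i < E + κ).card : ℝ) ≤ 2 ^ (α * n)

/-- `E` is low-lying: few eigenvalues of the averaged Hamiltonian `B` are smaller than `E + κ`, or
`E` is the lowest energy of `H` and few eigenvalues of `B` are smaller than `E₀ + κ` for some
eigenvalue `E₀` of `B`. -/
def LowE (α κ : ℝ) (H B : Op n Y) (E : ℝ) : Prop :=
  Few α κ E B ∨ ((∀ v : Cube n × Y → ℂ, E * nsq v ≤ (star v ⬝ᵥ H *ᵥ v).re) ∧
    ∃ (E₀ : ℝ) (v : Cube n × Y → ℂ), v ≠ 0 ∧ B *ᵥ v = (E₀ : ℂ) • v ∧ Few α κ E₀ B)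

/-- A schedule consists of `l + 1` continuous paths of Hamiltonians `Ham`, given by coefficient
vectors `a i s` of `ℓ¹` norm at most `Λ`; at the beginning only words without the cost are used.
It follows unit eigenvectors `ψ i s` for eigenvalues `E i s`, which are continuous along each path,
low-lying, and separated by at least `g > 2 ^ (-u n)` from the rest of the spectrum.  Between two
paths there is a jump: the overlap of the eigenvectors before and after the jump exceeds
`2 ^ (-u n) / g`, possibly after the application of one of the words `T j`.  Then the last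
eigenvector has at most the norm `2 ^ (-u n) / g` on every set `L` of assignments that violate at
most the fraction `(1 - t) / 2 ^ k` of the clauses. -/
def Hard {p q : ℕ} (α κ Λ t u : ℝ) (G : Fin m → Clause n k) (w : Fin p → List (Letter n m Y))
    (T : Fin q → List (Letter n m Y)) (z : Cube n) : Prop :=
  ∀ (g : ℝ) (l : ℕ) (a : ℕ → ℝ → Fin p → ℝ) (E : ℕ → ℝ → ℝ) (ψ : ℕ → ℝ → Cube n × Y → ℂ),
    (2 : ℝ) ^ (-u * n) < g → g ≤ 1 → (∀ i, a 0 0 i ≠ 0 → Letter.cost ∉ w i) →
    (∀ i ≤ l, ContinuousOn (a i) (Set.Icc 0 1) ∧ ContinuousOn (E i) (Set.Icc 0 1) ∧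
      ∀ s ∈ Set.Icc (0 : ℝ) 1, ∑ j, |a i s j| ≤ Λ ∧
        Iso (Ham (Letter.op G z) w (a i s)) g (E i s) (ψ i s) ∧
        LowE α κ (Ham (Letter.op G z) w (a i s)) (Ham Letter.av w (a i s)) (E i s)) →
    (∀ i < l, (2 : ℝ) ^ (-u * n) / g < ‖star (ψ (i + 1) 0) ⬝ᵥ ψ i 1‖ ∨
      ∃ j, (2 : ℝ) ^ (-u * n) / g <
        ‖star (ψ (i + 1) 0) ⬝ᵥ ((T j).map (Letter.op G z)).prod *ᵥ ψ i 1‖) →
    ∀ L : Finset (Cube n), (∀ x ∈ L, (pviol G z x : ℝ) ≤ (1 - t) * m / 2 ^ k) →
      Real.sqrt (∑ x ∈ L, ∑ y, ‖ψ l 1 (x, y)‖ ^ 2) ≤ (2 : ℝ) ^ (-u * n) / g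

end Pool.Agent.H73.AW
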