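import Pool.Agent.H73.AW.Let

/-! Bounds for words. -/

namespace Pool.Agent.H73.AW

open Finset Matrix Pool.Agent.H73.QA Pool.Agent.H73.AD

set_option linter.unusedSectionVars false

variable {n k m : ℕ} {Y : Type} [Fintype Y] [DecidableEq Y] {p q r : ℕ}

theorem wd_nil (f : Letter n m Y → Op n Y) : wd f [] = 1 := rfl

theorem wd_cons (f : Letter n m Y → Op n Y) (l : Letter n m Y) (w : List (Letter n m Y)) :
    wd f (l :: w) = f l * wd f w := by
  unfold wd
  rw [List.map_cons, List.prod_cons]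

theorem lin_wd_nil (f : Letter n m Y → Op n Y) (u : Sp n Y) : lin (wd f []) u = u := by
  rw [wd_nil, lin_one]
  rfl

theorem lin_wd_cons (f : Letter n m Y → Op n Y) (l : Letter n m Y) (w : List (Letter n m Y))
    (u : Sp n Y) : lin (wd f (l :: w)) u = lin (f l) (lin (wd f w) u) := by
  rw [wd_cons, lin_mul]
  rfl

/-- norm of a word -/
theorem norm_wd {f : Letter n m Y → Op n Y} {K : ℝ} (hK : 0 ≤ K) (w : List (Letter n m Y))
    (hw : ∀ l ∈ w, ∀ u, ‖lin (f l) u‖ ≤ K * ‖u‖) (u : Sp n Y) :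
    ‖lin (wd f w) u‖ ≤ K ^ w.length * ‖u‖ := by
  induction w with
  | nil => rw [lin_wd_nil]; simp
  | cons l w ih =>
    rw [lin_wd_cons, List.length_cons, pow_succ']
    have h1 := hw l (by simp) (lin (wd f w) u)
    have h2 := ih fun l hl => hw l (by simp [hl])
    calc ‖lin (f l) (lin (wd f w) u)‖ ≤ K * ‖lin (wd f w) u‖ := h1
      _ ≤ K * (K ^ w.length * ‖u‖) := mul_le_mul_of_nonneg_left h2 hK
      _ = _ := by ring

theorem norm_wd_op {G : Fin m → Clause n k} {ε δ ν : ℝ} (hm : 0 < m) (hε : ε ≤ 1)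
    (hG : Typ ε δ ν G) (z : Cube n) (w : List (Letter n m Y)) (hw : ∀ l ∈ w, l.Ok k) (u : Sp n Y) :
    ‖lin (wd (Letter.op G z) w) u‖ ≤ 2 ^ w.length * ‖u‖ :=
  norm_wd zero_le_two w (fun l hl u => norm_op_le hm hε hG z (hw l hl) u) u

theorem norm_wd_flt {G : Fin m → Clause n k} {ε δ ν : ℝ} (hm : 0 < m) (hε : ε ≤ 1)
    (hG : Typ ε δ ν G) (z : Cube n) (w : List (Letter n m Y)) (hw : ∀ l ∈ w, l.Ok k) (u : Sp n Y) :
    ‖lin (wd (Letter.flt G δ z) w) u‖ ≤ 2 ^ w.length * ‖u‖ :=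
  norm_wd zero_le_two w (fun l hl u => norm_flt_le hm hε hG z (hw l hl) u) u

theorem norm_wd_av (w : List (Letter n m Y)) (hw : ∀ l ∈ w, l.Ok k) (u : Sp n Y) :
    ‖lin (wd Letter.av w) u‖ ≤ ‖u‖ := by
  have h := norm_wd (f := Letter.av) zero_le_one w
    (fun l hl u => by rw [one_mul]; exact norm_av_le (hw l hl) u) u
  rwa [one_pow, one_mul] at h

/-- averaged versus flattened word -/
theorem wd_av_flt {G : Fin m → Clause n k} {ε δ ν : ℝ} (hm : 0 < m) (hε0 : 0 ≤ ε) (hε : ε ≤ 1)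
    (hν : 0 ≤ ν) (hG : Typ ε δ ν G) (z : Cube n) (w : List (Letter n m Y))
    (hw : ∀ l ∈ w, l.Ok k) (u : Sp n Y) :
    ‖lin (wd Letter.av w) u - lin (wd (Letter.flt G δ z) w) u‖ ≤
      w.length * 2 ^ w.length * (ν + ε + 2 / Real.sqrt (2 ^ k)) * ‖u‖ := by
  obtain ⟨σ, hσ⟩ : ∃ σ, σ = ν + ε + 2 / Real.sqrt (2 ^ k) := ⟨_, rfl⟩
  have hσ0 : 0 ≤ σ := by rw [hσ]; positivity
  rw [← hσ]
  induction w with
  | nil => rw [lin_wd_nil, lin_wd_nil]; simp
  | cons l w ih =>
    have hl : l.Ok k := hw l (by simp)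
    have hw' : ∀ l ∈ w, l.Ok k := fun l hl => hw l (by simp [hl])
    rw [lin_wd_cons, lin_wd_cons]
    have h1 : lin l.av (lin (wd Letter.av w) u) -
        lin (l.flt G δ z) (lin (wd (Letter.flt G δ z) w) u) =
        lin l.av (lin (wd Letter.av w) u - lin (wd (Letter.flt G δ z) w) u) +
        (lin l.av (lin (wd (Letter.flt G δ z) w) u) -
          lin (l.flt G δ z) (lin (wd (Letter.flt G δ z) w) u)) := by
      rw [map_sub]; abel
    rw [h1]
    refine (norm_add_le _ _).trans ?_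
    have h2 := (norm_av_le hl (lin (wd Letter.av w) u - lin (wd (Letter.flt G δ z) w) u)).trans
      (ih hw')
    have h3 := av_flt_le hm hε0 hε hν hG z hl (lin (wd (Letter.flt G δ z) w) u)
    rw [← hσ] at h3
    have h4 := norm_wd_flt hm hε hG z w hw' u
    have h5 : σ * ‖lin (wd (Letter.flt G δ z) w) u‖ ≤ σ * (2 ^ w.length * ‖u‖) :=
      mul_le_mul_of_nonneg_left h4 hσ0
    have h6 : (0 : ℝ) ≤ 2 ^ w.length * σ * ‖u‖ := by positivity
    rw [List.length_cons, pow_succ]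
    push_cast
    have h7 : (0 : ℝ) ≤ w.length * (2 ^ w.length * σ * ‖u‖) := by positivity
    nlinarith

/-- flattened words are good -/
theorem goodOp_wd {G : Fin m → Clause n k} {ε δ ν β : ℝ} (hm : 0 < m) (hε : ε ≤ 1)
    (hG : Typ ε δ ν G) {Z : Type} [Fintype Z] (hβ : 0 ≤ β) (ζ : Z → Cube n)
    (hB : ∀ x, ((univ.filter fun z => x ∈ hball δ (ζ z)).card : ℝ) ≤ β ^ 2)
    (w : List (Letter n m Y)) (hw : ∀ l ∈ w, l.Ok k) :
    GoodOp β (8 ^ w.length) fun z => lin (wd (Letter.flt G δ (ζ z)) w) := by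
  induction w with
  | nil =>
    have h1 : (fun z => lin (wd (Letter.flt G δ (ζ z)) ([] : List (Letter n m Y)))) =
        fun _ => LinearMap.id := by
      funext z
      rw [wd_nil, lin_one]
    rw [h1]
    simpa using goodOp_fixed (β := β) (Z := Z) zero_le_one
      (LinearMap.id : Sp n Y →ₗ[ℂ] Sp n Y) (fun u => by simp)
  | cons l w ih =>
    have h1 := (ih fun l hl => hw l (by simp [hl])).comp
      (goodOp_flt hm hε hG hβ ζ hB (hw l (by simp)))
    have h2 : (fun z => lin (l.flt G δ (ζ z)) ∘ₗ lin (wd (Letter.flt G δ (ζ z)) w)) =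
        fun z => lin (wd (Letter.flt G δ (ζ z)) (l :: w)) := by
      funext z
      rw [wd_cons, lin_mul]
    rw [h2] at h1
    rw [List.length_cons, pow_succ']
    exact h1

/-- flattened versus actual word -/
theorem wd_diff {G : Fin m → Clause n k} {ε δ ν η : ℝ} (hm : 0 < m) (hε : ε ≤ 1)
    (hG : Typ ε δ ν G) (hη : 0 ≤ η) (z : Cube n) (w : List (Letter n m Y)) (hw : ∀ l ∈ w, l.Ok k)
    (u : Sp n Y) (hu : ∀ i, ‖nearP (hball δ z) (lin (wd (Letter.flt G δ z) (w.drop i)) u)‖ ≤ η) :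
    ‖lin (wd (Letter.flt G δ z) w) u - lin (wd (Letter.op G z) w) u‖ ≤
      2 ^ (w.length + 1) * η := by
  have key : ‖lin (wd (Letter.flt G δ z) w) u - lin (wd (Letter.op G z) w) u‖ ≤
      (2 ^ (w.length + 1) - 2) * η := by
    induction w with
    | nil => rw [lin_wd_nil, lin_wd_nil]; simp
    | cons l w ih =>
      have hl : l.Ok k := hw l (by simp)
      have hw' : ∀ l ∈ w, l.Ok k := fun l hl => hw l (by simp [hl])
      rw [lin_wd_cons, lin_wd_cons]
      have h1 : lin (l.flt G δ z) (lin (wd (Letter.flt G δ z) w) u) -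
          lin (l.op G z) (lin (wd (Letter.op G z) w) u) =
          (lin (l.flt G δ z) (lin (wd (Letter.flt G δ z) w) u) -
            lin (l.op G z) (lin (wd (Letter.flt G δ z) w) u)) +
          lin (l.op G z) (lin (wd (Letter.flt G δ z) w) u - lin (wd (Letter.op G z) w) u) := by
        rw [map_sub]; abel
      rw [h1]
      refine (norm_add_le _ _).trans ?_
      have h2 := flt_op_le hm hε hG z l (lin (wd (Letter.flt G δ z) w) u)
      have h3 := hu 1
      rw [List.drop_one, List.tail_cons] at h3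
      have h4 := norm_op_le hm hε hG z hl
        (lin (wd (Letter.flt G δ z) w) u - lin (wd (Letter.op G z) w) u)
      have h5 := ih hw' (fun i => by
        have h6 := hu (i + 1)
        rwa [List.drop_succ_cons] at h6)
      rw [List.length_cons, pow_succ]
      nlinarith
  refine key.trans (mul_le_mul_of_nonneg_right (by linarith) hη)

/-- adjoints -/
theorem adj_op (G : Fin m → Clause n k) (z : Cube n) (l : Letter n m Y) :
    l.adj.op G z = (l.op G z)ᴴ := by
  cases l with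
  | fix D => rfl
  | cost =>
    show diagonal _ = (diagonal _)ᴴ
    rw [diagonal_conjTranspose]
    congr 1
    funext x
    simp
  | cls h =>
    show ∑ j ∈ univ.filter (fun j => ¬ Violates z (G j)), (h j)ᴴ = (∑ j ∈ _, h j)ᴴ
    rw [conjTranspose_sum]

theorem adj_flt (G : Fin m → Clause n k) (δ : ℝ) (z : Cube n) (l : Letter n m Y) :
    l.adj.flt G δ z = (l.flt G δ z)ᴴ := by
  cases l with
  | fix D => rfl
  | cost =>
    show diagonal _ = (diagonal _)ᴴ
    rw [diagonal_conjTranspose]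
    congr 1
    funext x
    simp
  | cls h =>
    show ∑ j ∈ univ.filter (fun j => ¬ Violates z (G j)), (h j)ᴴ = (∑ j ∈ _, h j)ᴴ
    rw [conjTranspose_sum]

theorem adj_av (l : Letter n m Y) : l.adj.av = l.avᴴ := by
  cases l with
  | fix D => rfl
  | cost => show (1 : Op n Y) = 1ᴴ; rw [conjTranspose_one]
  | cls h => show ∑ j, (h j)ᴴ = (∑ j, h j)ᴴ; rw [conjTranspose_sum]

/-- adjoint of a matrix with bounded norm -/
theorem bdd_adj {A : Op n Y} {a : ℝ} (ha : 0 ≤ a) (hA : Bdd A a) : Bdd Aᴴ a := by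
  intro v
  -- `‖Aᴴ v‖² = ⟨A Aᴴ v, v⟩ ≤ a ‖Aᴴ v‖ ‖v‖`
  obtain ⟨V, hV⟩ : ∃ V : Sp n Y, V = WithLp.toLp 2 v := ⟨_, rfl⟩
  have h0 : ∀ u : Cube n × Y → ℂ, nsq u = ‖(WithLp.toLp 2 u : Sp n Y)‖ ^ 2 := fun u =>
    (EuclideanSpace.norm_sq_eq _).symm
  obtain ⟨U, hU⟩ : ∃ U : Sp n Y, U = lin Aᴴ V := ⟨_, rfl⟩
  have h1 : (WithLp.toLp 2 (Aᴴ *ᵥ v) : Sp n Y) = U := by
    rw [hU, hV]
    unfold lin
    rw [toLpLin_apply]
  rw [h0, h0, h1, ← hV]
  have h2 : inner ℂ U U = inner ℂ (lin A U) V := by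
    have h3 : ∀ x y : Sp n Y, inner ℂ x (lin Aᴴ y) = inner ℂ (lin A x) y := by
      intro x y
      rw [EuclideanSpace.inner_eq_star_dotProduct, EuclideanSpace.inner_eq_star_dotProduct]
      unfold lin
      rw [toLpLin_apply, toLpLin_apply]
      show (Aᴴ *ᵥ y.ofLp) ⬝ᵥ star x.ofLp = y.ofLp ⬝ᵥ star (A *ᵥ x.ofLp)
      rw [star_mulVec, dotProduct_comm, dotProduct_mulVec, dotProduct_comm]
    rw [← h3, ← hU]
  have h3 : ‖U‖ ^ 2 ≤ a * ‖U‖ * ‖V‖ := by
    have h4 : ‖inner ℂ U U‖ = ‖U‖ ^ 2 := by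
      rw [inner_self_eq_norm_sq_to_K]
      simp
    rw [← h4, h2]
    refine (norm_inner_le_norm _ _).trans ?_
    exact mul_le_mul_of_nonneg_right (norm_lin_of_bdd ha hA U) (norm_nonneg _)
  rcases eq_or_lt_of_le (norm_nonneg U) with h4 | h4
  · rw [← h4, zero_pow two_ne_zero]
    positivity
  · have h5 : ‖U‖ ≤ a * ‖V‖ := by
      have h6 : ‖U‖ * ‖U‖ ≤ (a * ‖V‖) * ‖U‖ := by nlinarith
      exact le_of_mul_le_mul_right h6 h4
    rw [← mul_pow]
    exact pow_le_pow_left₀ h4.le h5 2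

theorem adj_ok {l : Letter n m Y} (hl : l.Ok k) : l.adj.Ok k := by
  cases l with
  | fix D => exact bdd_adj zero_le_one hl
  | cost => trivial
  | cls h =>
    refine ⟨?_, fun j => bdd_adj (by positivity) (hl.2 j)⟩
    have h1 := bdd_adj zero_le_one hl.1
    rwa [conjTranspose_sum] at h1

theorem adjW_ok {w : List (Letter n m Y)} (hw : ∀ l ∈ w, l.Ok k) : ∀ l ∈ adjW w, l.Ok k := by
  intro l hl
  unfold adjW at hl
  rw [List.mem_reverse, List.mem_map] at hl
  obtain ⟨l', h1, h2⟩ := hl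
  rw [← h2]
  exact adj_ok (hw l' h1)

theorem adjW_length (w : List (Letter n m Y)) : (adjW w).length = w.length := by
  unfold adjW
  rw [List.length_reverse, List.length_map]

theorem wd_adj {f : Letter n m Y → Op n Y} (hf : ∀ l, f l.adj = (f l)ᴴ)
    (w : List (Letter n m Y)) : (wd f w)ᴴ = wd f (adjW w) := by
  unfold wd adjW
  rw [conjTranspose_list_prod, List.map_map, List.map_reverse, List.map_map]
  congr 2
  apply List.map_congr_left
  intro l _
  exact (hf l).symm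

theorem ham_eq {f : Letter n m Y → Op n Y} (hf : ∀ l, f l.adj = (f l)ᴴ)
    (w : Fin p → List (Letter n m Y)) (a : Fin p → ℝ) :
    Ham f w a = ∑ i, (a i : ℂ) • (wd f (w i) + wd f (adjW (w i))) := by
  unfold Ham
  refine sum_congr rfl fun i _ => ?_
  rw [← wd_adj hf]
  rfl

theorem ham_herm (f : Letter n m Y → Op n Y) (w : Fin p → List (Letter n m Y)) (a : Fin p → ℝ) :
    (Ham f w a).IsHermitian := by
  unfold Ham
  rw [IsHermitian, conjTranspose_sum]
  refine sum_congr rfl fun i _ => ?_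
  rw [conjTranspose_smul, conjTranspose_add, conjTranspose_conjTranspose, add_comm]
  congr 1
  simp

end Pool.Agent.H73.AW
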